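import Mathlib

/-!
# Project NU: definitions

`Face`, `IsChain`, `bd`, `Exact`, `cl`: complexes given by forbidden sets, chains over `F_2`.
`IsLaw`, `ent`, `amb`, `law`, `Abs`: entropy of sums of independent uniform digits.
-/

open Finset

namespace Pool.Agent.NU

section Top

variable {α : Type*} [DecidableEq α]

/-- `F` is a face of the complex on the ground set `Ω` with forbidden sets `𝒟`. -/
def Face (Ω : Finset α) (𝒟 : Finset (Finset α)) (F : Finset α) : Prop :=
  F ⊆ Ω ∧ ∀ D ∈ 𝒟, ¬ D ⊆ F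

/-- `z` is an `F_2`-chain supported on faces with exactly `n` elements. -/
def IsChain (Ω : Finset α) (𝒟 : Finset (Finset α)) (n : ℕ) (z : Finset α → ZMod 2) : Prop :=
  ∀ F, z F ≠ 0 → Face Ω 𝒟 F ∧ F.card = n

/-- The boundary of a chain. -/
def bd (Ω : Finset α) (z : Finset α → ZMod 2) (F : Finset α) : ZMod 2 :=
  ∑ v ∈ Ω \ F, z (insert v F)

/-- Every cycle supported on faces with `n` elements is a boundary. -/
def Exact (Ω : Finset α) (𝒟 : Finset (Finset α)) (n : ℕ) : Prop :=
  ∀ z : Finset α → ZMod 2, IsChain Ω 𝒟 n z → (∀ F, bd Ω z F = 0) →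
    ∃ y, IsChain Ω 𝒟 (n + 1) y ∧ ∀ F, bd Ω y F = z F

/-- Elements of `Ω` outside `A` which complete a member of `𝒟` together with elements of `A`. -/
def cl (Ω : Finset α) (𝒟 : Finset (Finset α)) (A : Finset α) : Finset α :=
  (Ω \ A).filter fun v => ∃ D ∈ 𝒟, v ∈ D ∧ D ⊆ insert v A

end Top

section Ent

variable {G : Type*} [AddCommGroup G]

/-- `B` has no nontrivial relation with coefficients of absolute value at most `m`. -/
def MIndep (m : ℕ) (B : Finset G) : Prop :=
  ∀ c : G → ℤ, (∀ b ∈ B, |c b| ≤ m) → (∑ b ∈ B, c b • b) = 0 → ∀ b ∈ B, c b = 0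

/-- Distinct subsets of `B` have distinct sums. -/
def DistinctSums (B : Finset G) : Prop :=
  ∀ C D : Finset G, C ⊆ B → D ⊆ B → (∑ x ∈ C, x) = (∑ x ∈ D, x) → C = D

/-- The proportional property (property `(⋆)`) with constant `δ`. -/
def Proportional (δ : ℝ) (Λ : Set G) : Prop :=
  ∀ A : Finset G, (↑A : Set G) ⊆ Λ →
    ∃ B : Finset G, B ⊆ A ∧ DistinctSums B ∧ δ * (A.card : ℝ) ≤ (B.card : ℝ)

/-- Probability vectors with finite support. -/
structure IsLaw (P : G → ℝ) : Prop where
  nonneg : ∀ g, 0 ≤ P g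
  fin : (Function.support P).Finite
  mass : ∑' g, P g = 1

/-- Law of `X + β c`, `β` a uniform bit. -/
noncomputable def bitOp (c : G) (P : G → ℝ) : G → ℝ := fun g => (P g + P (g - c)) / 2

/-- Law of `X + ξ v`, `ξ` uniform in `{0, …, M-1}`. -/
noncomputable def digOp (M : ℕ) (v : G) (P : G → ℝ) : G → ℝ :=
  fun g => (∑ j ∈ range M, P (g - j • v)) / M

/-- Entropy (natural logarithm). -/
noncomputable def ent (P : G → ℝ) : ℝ := ∑' g, Real.negMulLog (P g)

/-- `(x+y) log (x+y) - x log x - y log y`. -/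
noncomputable def Psi (x y : ℝ) : ℝ :=
  (x + y) * Real.log (x + y) - x * Real.log x - y * Real.log y

/-- Conditional entropy of the bit `β` given `X + β c`. -/
noncomputable def amb (P : G → ℝ) (c : G) : ℝ := (∑' g, Psi (P g) (P (g - c))) / 2

/-- Digit vectors on `A` with digits `0, …, M-1`. -/
noncomputable def Dig (M : ℕ) (A : Finset G) : Finset (G →₀ ℕ) :=
  by classical exact A.finsupp fun _ => range M

/-- The sum `∑ f(a) a`. -/
noncomputable def sig (f : G →₀ ℕ) : G := f.sum fun a n => n • a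

/-- The law of `∑_{a ∈ A} ξ_a a` with independent uniform digits `ξ_a ∈ {0, …, M-1}`. -/
noncomputable def law (M : ℕ) (A : Finset G) : G → ℝ := by
  classical exact fun g => (((Dig M A).filter fun f => sig f = g).card : ℝ) / (M : ℝ) ^ A.card

/-- `v` is absorbed by `A`: for some `1 ≤ j < M` the bit `β` in `X_A + β j v` has conditional
entropy at least `ε`. -/
def Abs (M : ℕ) (ε : ℝ) (A : Finset G) (v : G) : Prop :=
  ∃ j : ℕ, 1 ≤ j ∧ j < M ∧ ε ≤ amb (law M A) (j • v)

end Ent

section Shatter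

variable {ι : Type*}

/-- The family `F` of digit vectors shatters `B` (with margin `m`). -/
def Shat (m M : ℕ) (F : Finset (ι →₀ ℕ)) (B : Finset ι) : Prop :=
  ∀ S ⊆ B, ∃ f ∈ F, (∀ b ∈ S, m ≤ f b) ∧ ∀ b ∈ B, b ∉ S → f b + m < M

end Shatter

end Pool.Agent.NU
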