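import Pool.Agent.NU.NTe

/-!
# NTf: infinite colouring theorem (compactness)
-/

open Finset

namespace Pool.Agent.NU

variable {β : Type*} [DecidableEq β]

theorem infinite_colouring (K : ℕ) (V : Set β)
    (𝒞 : Set (Finset β)) (h0 : ∅ ∉ 𝒞)
    (h : ∀ A W : Finset β, (↑A : Set β) ⊆ V → (↑W : Set β) ⊆ V → Disjoint A W →
      (∀ w ∈ W, ∃ C ∈ 𝒞, w ∈ C ∧ C ⊆ insert w A) → A.card + W.card ≤ K * A.card) :
    ∃ T : Fin (2 * K) → Set β, V = ⋃ i, T i ∧ ∀ i, ∀ C ∈ 𝒞, ¬ (↑C : Set β) ⊆ T i := by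
  classical
  rcases V.eq_empty_or_nonempty with hV | ⟨v0, hv0⟩
  · refine ⟨fun _ => ∅, ?_, ?_⟩
    · rw [hV]
      simp
    · intro i C hC hCs
      have : C = ∅ := by
        rw [← Finset.coe_eq_empty]
        exact Set.subset_empty_iff.mp hCs
      rw [this] at hC
      exact h0 hC
  · have hK : 1 ≤ K := by
      have := h {v0} ∅ (by simpa using hv0) (by simp) (by simp) (by simp)
      simpa using this
    let Vs : Finset β → Finset β := fun s => s.filter (· ∈ V)
    let Cs : Finset β → Finset (Finset β) := fun s => (Vs s).powerset.filter (· ∈ 𝒞)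
    have hVs : ∀ s, (↑(Vs s) : Set β) ⊆ V := by
      intro s x hx
      have := Finset.mem_coe.mp hx
      exact (Finset.mem_filter.mp this).2
    have key : ∀ s : Finset β, ∃ f : β → ℕ, (∀ v ∈ Vs s, f v < 2 * K) ∧
        ∀ C ∈ Cs s, C ⊆ Vs s → ∀ i, ∃ v ∈ C, f v ≠ i := by
      intro s
      apply finite_colouring K (Vs s) (Cs s)
      · intro hc
        exact h0 (Finset.mem_filter.mp hc).2
      · intro A hA
        apply h A (cl (Vs s) (Cs s) A)
        · exact fun x hx => hVs s (hA hx)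
        · intro x hx
          have h1 : x ∈ (Vs s) \ A := (Finset.mem_filter.mp (Finset.mem_coe.mp hx)).1
          exact hVs s (Finset.mem_sdiff.mp h1).1
        · rw [Finset.disjoint_left]
          intro x hxA hx
          have h1 : x ∈ (Vs s) \ A := (Finset.mem_filter.mp hx).1
          exact (Finset.mem_sdiff.mp h1).2 hxA
        · intro w hw
          obtain ⟨D, hD, hwD, hDs⟩ := (Finset.mem_filter.mp hw).2
          exact ⟨D, (Finset.mem_filter.mp hD).2, hwD, hDs⟩
    choose f hf1 hf2 using key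
    have hpos : 0 < 2 * K := by omega
    let g : Finset β → β → Fin (2 * K) := fun s v =>
      if hh : f s v < 2 * K then ⟨f s v, hh⟩ else ⟨0, hpos⟩
    obtain ⟨χ, hχ⟩ := Finset.rado_selection (β := fun _ : β => Fin (2 * K)) g
    refine ⟨fun i => {v | v ∈ V ∧ χ v = i}, ?_, ?_⟩
    · ext v
      simp
    · intro i C hC hCs
      obtain ⟨t, hCt, hag⟩ := hχ C
      have hCV : C ⊆ Vs t := by
        intro x hx
        exact Finset.mem_filter.mpr ⟨hCt hx, (hCs (Finset.mem_coe.mpr hx)).1⟩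
      have hCC : C ∈ Cs t := Finset.mem_filter.mpr ⟨Finset.mem_powerset.mpr hCV, hC⟩
      obtain ⟨v, hvC, hne⟩ := hf2 t C hCC hCV i.val
      apply hne
      have h1 : χ v = i := (hCs (Finset.mem_coe.mpr hvC)).2
      have h2 : χ v = g t v := hag v hvC
      have h3 : f t v < 2 * K := hf1 t v (hCV hvC)
      have h4 : g t v = ⟨f t v, h3⟩ := dif_pos h3
      rw [← h1, h2, h4]

end Pool.Agent.NU
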