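import Pool.Agent.NU.Def

/-!
# NEa: the function Psi (real analysis, Mathlib only)

Psi x y = (x+y)log(x+y) - x log x - y log y = negMulLog x + negMulLog y - negMulLog (x+y) (log 0 = 0).
Psi_nonneg: (x+y)log(x+y) ≥ x log x + y log y by monotonicity of log (x>0: log x ≤ log(x+y); x = 0 trivial).
Psi_mul: log (t x) = log t + log x, cases t = 0, x = 0, y = 0.
Psi_add (superadditivity): for s = x+x', u = y+y', it is the log-sum inequality. Write Psi x y = x log((x+y)/x) +
y log((x+y)/y); need x log((x+y)/x) + x' log((x'+y')/x') ≤ s log((s+u)/s): if x, x' > 0 this is concavity of log (Jensen with weights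
x/s, x'/s at (x+y)/x, (x'+y')/x'), or log t ≤ t - 1 with t = ((x+y)/x)/((s+u)/s). Cases of zeros are easy.
Psi_mono: 0 ≤ x ≤ x', 0 ≤ y ≤ y' imply Psi x y ≤ Psi x' y' (from Psi_add and Psi_nonneg).
Psi_min: 2 log 2 · min x y ≤ Psi x y (Psi_mono and Psi t t = 2 t log 2).
phi_le: with s = ∑ x_i: left side = ∑_{i, x_i>0} x_i log(s/x_i), log(s/x_i) = log(1 + ∑_{j≠i} x_j/x_i) ≤
∑_{j≠i} log(1 + x_j/x_i) (prod of (1+a_j) ≥ 1 + sum a_j). Sum over i and pair up. Alternatively induction on M:
it suffices that (S+x)log(S+x) - S log S - x log x ≤ ∑_{j<M} Psi x_j x with S = ∑_{j<M} x_j, i.e.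
Psi S x ≤ ∑ Psi x_j x: subadditivity of t ↦ Psi t x (concave in t and 0 at t=0; ConcaveOn; its derivative is log((t+x)/t)).
phi_nonneg: the left side is ≥ 0.
-/

open Finset

namespace Pool.Agent.NU

private theorem xl {x s : ℝ} (hx : 0 ≤ x) (hxs : x ≤ s) : x * Real.log x ≤ x * Real.log s := by
  rcases hx.eq_or_lt with h | h
  · rw [← h]; simp
  · exact mul_le_mul_of_nonneg_left (Real.log_le_log h hxs) hx

private theorem ls {x a s A : ℝ} (hx : 0 ≤ x) (ha : x ≤ a) (hs : 0 < s) (hA : 0 < A) :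
    x * (Real.log a - Real.log x) ≤ x * (Real.log A - Real.log s) + (a * s / A - x) := by
  rcases hx.eq_or_lt with h | h
  · rw [← h]
    have : 0 ≤ a * s / A := by rw [← h] at ha; positivity
    simpa using this
  · have ha' : 0 < a := lt_of_lt_of_le h ha
    have h1 := Real.log_le_sub_one_of_pos (show 0 < a * s / (x * A) by positivity)
    rw [Real.log_div (by positivity) (by positivity), Real.log_mul ha'.ne' hs.ne', Real.log_mul h.ne' hA.ne'] at h1
    have h2 := mul_le_mul_of_nonneg_left h1 hx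
    have h3 : x * (a * s / (x * A) - 1) = a * s / A - x := by
      field_simp
    rw [h3] at h2
    linarith

private theorem ll {x x' a a' : ℝ} (hx : 0 ≤ x) (hx' : 0 ≤ x') (ha : x ≤ a) (ha' : x' ≤ a') :
    x * (Real.log a - Real.log x) + x' * (Real.log a' - Real.log x') ≤
      (x + x') * (Real.log (a + a') - Real.log (x + x')) := by
  rcases (add_nonneg hx hx').eq_or_lt with h | h
  · have h1 : x = 0 := by linarith
    have h2 : x' = 0 := by linarith
    rw [h1, h2]; simp
  · have hA : 0 < a + a' := by linarith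
    have h1 := ls hx ha h hA
    have h2 := ls hx' ha' h hA
    have h3 : a * (x + x') / (a + a') + a' * (x + x') / (a + a') = x + x' := by
      field_simp
    linarith

private theorem psi_eq (x y : ℝ) : Psi x y =
    x * (Real.log (x + y) - Real.log x) + y * (Real.log (x + y) - Real.log y) := by
  unfold Psi; ring

private theorem xm {t x : ℝ} : (t * x) * Real.log (t * x) = t * x * Real.log t + t * (x * Real.log x) := by
  by_cases ht : t = 0
  · rw [ht]; simp
  · by_cases hx : x = 0
    · rw [hx]; simp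
    · rw [Real.log_mul ht hx]; ring

private theorem ts {s u v : ℝ} (hs : 0 ≤ s) (hu : 0 ≤ u) (hv : 0 ≤ v) :
    0 ≤ s * (Real.log (s + u) + Real.log (s + v) - Real.log s - Real.log (s + u + v)) := by
  rcases hs.eq_or_lt with h | h
  · rw [← h]; simp
  · apply mul_nonneg hs
    have h1 : Real.log (s * (s + u + v)) ≤ Real.log ((s + u) * (s + v)) := by
      apply Real.log_le_log (by positivity)
      nlinarith [mul_nonneg hu hv]
    rw [Real.log_mul (by positivity) (by positivity), Real.log_mul (by positivity) (by positivity)] at h1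
    linarith

theorem Psi_nonneg {x y : ℝ} (hx : 0 ≤ x) (hy : 0 ≤ y) : 0 ≤ Psi x y := by
  unfold Psi
  have h1 := xl hx (show x ≤ x + y by linarith)
  have h2 := xl hy (show y ≤ x + y by linarith)
  linarith [add_mul x y (Real.log (x + y))]

theorem Psi_comm (x y : ℝ) : Psi x y = Psi y x := by
  unfold Psi
  rw [add_comm x y]
  ring

theorem Psi_zero_right (x : ℝ) : Psi x 0 = 0 := by
  unfold Psi
  simp

theorem Psi_add {x y x' y' : ℝ} (hx : 0 ≤ x) (hy : 0 ≤ y) (hx' : 0 ≤ x') (hy' : 0 ≤ y') :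
    Psi x y + Psi x' y' ≤ Psi (x + x') (y + y') := by
  rw [psi_eq, psi_eq, psi_eq]
  have h1 := ll hx hx' (show x ≤ x + y by linarith) (show x' ≤ x' + y' by linarith)
  have h2 := ll hy hy' (show y ≤ x + y by linarith) (show y' ≤ x' + y' by linarith)
  have h3 : x + x' + (y + y') = x + y + (x' + y') := by ring
  rw [h3]
  linarith

theorem Psi_mul {t x y : ℝ} (ht : 0 ≤ t) (hx : 0 ≤ x) (hy : 0 ≤ y) :
    Psi (t * x) (t * y) = t * Psi x y := by
  unfold Psi
  rw [← mul_add, xm, xm, xm]
  ring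

theorem Psi_mono {x y x' y' : ℝ} (hx : 0 ≤ x) (hy : 0 ≤ y) (hxx : x ≤ x') (hyy : y ≤ y') :
    Psi x y ≤ Psi x' y' := by
  have h1 := Psi_add hx hy (sub_nonneg.2 hxx) (sub_nonneg.2 hyy)
  have h2 := Psi_nonneg (sub_nonneg.2 hxx) (sub_nonneg.2 hyy)
  rw [add_sub_cancel, add_sub_cancel] at h1
  linarith

theorem Psi_min {x y : ℝ} (hx : 0 ≤ x) (hy : 0 ≤ y) :
    2 * Real.log 2 * min x y ≤ Psi x y := by
  have ht : 0 ≤ min x y := le_min hx hy
  refine le_trans (le_of_eq ?_) (Psi_mono ht ht (min_le_left x y) (min_le_right x y))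
  unfold Psi
  have h1 : min x y + min x y = 2 * min x y := by ring
  rw [h1, xm]
  ring

private theorem psi_sub {s t x : ℝ} (hs : 0 ≤ s) (ht : 0 ≤ t) (hx : 0 ≤ x) :
    Psi (s + t) x ≤ Psi s x + Psi t x := by
  have h1 := ts hs ht hx
  have h2 := ts ht hs hx
  have h3 := ts hx hs ht
  have e1 : t + s + x = s + t + x := by ring
  have e2 : x + s + t = s + t + x := by ring
  have e3 : t + s = s + t := by ring
  have e4 : x + s = s + x := by ring
  have e5 : x + t = t + x := by ring
  rw [e1, e3] at h2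
  rw [e2, e4, e5] at h3
  unfold Psi
  nlinarith [h1, h2, h3]

private theorem psi_sum {M : ℕ} (x : ℕ → ℝ) (hx : ∀ i, 0 ≤ x i) {y : ℝ} (hy : 0 ≤ y) :
    Psi (∑ j ∈ range M, x j) y ≤ ∑ j ∈ range M, Psi (x j) y := by
  induction M with
  | zero => simp [Psi]
  | succ n ih =>
    rw [sum_range_succ, sum_range_succ]
    exact (psi_sub (sum_nonneg fun i _ => hx i) (hx n) hy).trans (by linarith)

theorem phi_le {M : ℕ} (x : ℕ → ℝ) (hx : ∀ i, 0 ≤ x i) :
    (∑ i ∈ range M, x i) * Real.log (∑ i ∈ range M, x i) - ∑ i ∈ range M, x i * Real.log (x i)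
      ≤ ∑ i ∈ range M, ∑ j ∈ range i, Psi (x j) (x i) := by
  induction M with
  | zero => simp
  | succ n ih =>
    rw [sum_range_succ, sum_range_succ, sum_range_succ]
    have h1 := psi_sum (M := n) x hx (hx n)
    have h2 : Psi (∑ j ∈ range n, x j) (x n) = (∑ i ∈ range n, x i + x n) * Real.log (∑ i ∈ range n, x i + x n)
        - (∑ i ∈ range n, x i) * Real.log (∑ i ∈ range n, x i) - x n * Real.log (x n) := rfl
    linarith

theorem phi_nonneg {M : ℕ} (x : ℕ → ℝ) (hx : ∀ i, 0 ≤ x i) :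
    0 ≤ (∑ i ∈ range M, x i) * Real.log (∑ i ∈ range M, x i)
      - ∑ i ∈ range M, x i * Real.log (x i) := by
  rw [sub_nonneg, sum_mul]
  exact sum_le_sum fun i hi => xl (hx i) (single_le_sum (f := x) (fun j _ => hx j) hi)

end Pool.Agent.NU
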