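import Pool.Agent.NU.NEa

/-!
# NEb: laws and the entropy identity

All functions have finite support, so every tsum is a finite sum.
ent_bitOp: with x = P g, y = P (g-c): negMulLog ((x+y)/2) = -(x+y)/2 (log(x+y) - log 2), so
∑ negMulLog((x+y)/2) = log 2 · ∑ (x+y)/2 - (1/2)∑ (x+y)log(x+y) = log 2 - (1/2)∑ (Psi x y + x log x + y log y)
= log 2 - amb P c + (1/2)(ent P + ent P).
-/

open Finset

namespace Pool.Agent.NU

variable {G : Type*} [AddCommGroup G]

/-- The support of a translate is finite. -/
theorem fin_shift {P : G → ℝ} (hP : (Function.support P).Finite) (c : G) :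
    (Function.support fun g => P (g - c)).Finite := by
  refine (hP.image (fun x => x + c)).subset ?_
  intro g hg
  exact ⟨g - c, hg, sub_add_cancel g c⟩

omit [AddCommGroup G] in
/-- The support of `g ↦ f (P g) (Q g)` is finite. -/
theorem fin_two {P Q : G → ℝ} (hP : (Function.support P).Finite) (hQ : (Function.support Q).Finite)
    (f : ℝ → ℝ → ℝ) (hf : f 0 0 = 0) : (Function.support fun g => f (P g) (Q g)).Finite := by
  refine (hP.union hQ).subset ?_
  intro g hg
  by_contra h
  simp only [Set.mem_union, not_or, Function.mem_support, not_not] at h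
  exact hg (by simp only [h.1, h.2, hf])

/-- The support of `g ↦ f (P g) (P (g - c))` is finite. -/
theorem fin_pair {P : G → ℝ} (hP : (Function.support P).Finite) (c : G) (f : ℝ → ℝ → ℝ)
    (hf : f 0 0 = 0) : (Function.support fun g => f (P g) (P (g - c))).Finite :=
  fin_two hP (fin_shift hP c) f hf

/-- The support of `g ↦ f (P g)` is finite. -/
theorem fin_one {P : G → ℝ} (hP : (Function.support P).Finite) (f : ℝ → ℝ) (hf : f 0 = 0) :
    (Function.support fun g => f (P g)).Finite :=
  fin_two hP hP (fun x _ => f x) hf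

omit [AddCommGroup G] in
theorem sum_fin {P : G → ℝ} (hP : (Function.support P).Finite) : Summable P :=
  summable_of_hasFiniteSupport hP

/-- Translation invariance of sums. -/
theorem tsum_shift (f : G → ℝ) (c : G) : ∑' g, f (g - c) = ∑' g, f g :=
  (Equiv.subRight c).tsum_eq f

theorem IsLaw.summable {P : G → ℝ} (hP : IsLaw P) : Summable P := sum_fin hP.fin

theorem IsLaw.bitOp {P : G → ℝ} (hP : IsLaw P) (c : G) : IsLaw (bitOp c P) where
  nonneg g := div_nonneg (add_nonneg (hP.nonneg _) (hP.nonneg _)) (by norm_num)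
  fin := fin_pair hP.fin c (fun x y => (x + y) / 2) (by norm_num)
  mass := by
    have h1 : ∑' g, Pool.Agent.NU.bitOp c P g = ∑' g, (P g + P (g - c)) / 2 := rfl
    rw [h1, tsum_div_const, hP.summable.tsum_add (sum_fin (fin_shift hP.fin c)), tsum_shift P c, hP.mass]
    norm_num

theorem IsLaw.digOp {P : G → ℝ} (hP : IsLaw P) {M : ℕ} (hM : 1 ≤ M) (v : G) :
    IsLaw (digOp M v P) where
  nonneg g := div_nonneg (Finset.sum_nonneg fun _ _ => hP.nonneg _) (Nat.cast_nonneg M)
  fin := by
    have h1 : (⋃ j ∈ range M, Function.support fun g => P (g - j • v)).Finite :=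
      Set.Finite.biUnion (range M).finite_toSet fun j _ => fin_shift hP.fin _
    refine h1.subset ?_
    intro g hg
    by_contra h
    simp only [Set.mem_iUnion, not_exists, Function.mem_support, not_not] at h
    refine hg ?_
    have h2 : Pool.Agent.NU.digOp M v P g = (∑ j ∈ range M, P (g - j • v)) / M := rfl
    rw [h2, Finset.sum_eq_zero fun j hj => h j hj, zero_div]
  mass := by
    have h1 : ∑' g, Pool.Agent.NU.digOp M v P g = ∑' g, (∑ j ∈ range M, P (g - j • v)) / (M : ℝ) := rfl
    rw [h1, tsum_div_const, Summable.tsum_finsetSum fun j _ => sum_fin (fin_shift hP.fin _)]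
    have h2 : ∀ j ∈ range M, ∑' g, P (g - j • v) = 1 := fun j _ => by rw [tsum_shift P, hP.mass]
    rw [Finset.sum_congr rfl h2]
    simp only [sum_const, card_range, nsmul_eq_mul, mul_one]
    have h3 : (M : ℝ) ≠ 0 := by
      have : 0 < M := hM
      positivity
    exact div_self h3

theorem IsLaw.le_one {P : G → ℝ} (hP : IsLaw P) (g : G) : P g ≤ 1 := by
  rw [← hP.mass]
  exact hP.summable.le_tsum g fun j _ => hP.nonneg j

theorem IsLaw.ent_nonneg {P : G → ℝ} (hP : IsLaw P) : 0 ≤ ent P :=
  tsum_nonneg fun g => Real.negMulLog_nonneg (hP.nonneg g) (hP.le_one g)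

theorem IsLaw.sum_le_one {P : G → ℝ} (hP : IsLaw P) (S : Finset G) : ∑ g ∈ S, P g ≤ 1 := by
  rw [← hP.mass]
  exact hP.summable.sum_le_tsum S fun j _ => hP.nonneg j

theorem Psi_zero_zero : Psi 0 0 = 0 := by
  simp [Psi]

/-- The pointwise identity behind `ent_bitOp`. -/
theorem negMulLog_half {x y : ℝ} (hx : 0 ≤ x) (hy : 0 ≤ y) :
    Real.negMulLog ((x + y) / 2)
      = (x + y) / 2 * Real.log 2 - Psi x y / 2 + (Real.negMulLog x + Real.negMulLog y) / 2 := by
  rcases (add_nonneg hx hy).eq_or_lt with h | h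
  · have h1 : x = 0 := by linarith
    have h2 : y = 0 := by linarith
    subst h1
    subst h2
    simp [Psi]
  · rw [Real.negMulLog_def, Psi]
    simp only
    rw [Real.log_div h.ne' (by norm_num)]
    ring

theorem ent_bitOp {P : G → ℝ} (hP : IsLaw P) (c : G) :
    ent (bitOp c P) = ent P + Real.log 2 - amb P c := by
  have h1 : ent (bitOp c P) = ∑' g, ((P g + P (g - c)) / 2 * Real.log 2 - Psi (P g) (P (g - c)) / 2
      + (Real.negMulLog (P g) + Real.negMulLog (P (g - c))) / 2) := by
    refine tsum_congr fun g => ?_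
    exact negMulLog_half (hP.nonneg _) (hP.nonneg _)
  have s1 : Summable fun g => (P g + P (g - c)) / 2 * Real.log 2 :=
    sum_fin (fin_pair hP.fin c (fun x y => (x + y) / 2 * Real.log 2) (by norm_num))
  have s2 : Summable fun g => Psi (P g) (P (g - c)) / 2 :=
    sum_fin (fin_pair hP.fin c (fun x y => Psi x y / 2) (by rw [Psi_zero_zero]; norm_num))
  have s3 : Summable fun g => Real.negMulLog (P g) :=
    sum_fin (fin_one hP.fin Real.negMulLog Real.negMulLog_zero)
  have s4 : Summable fun g => Real.negMulLog (P (g - c)) :=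
    sum_fin (fin_one (fin_shift hP.fin c) Real.negMulLog Real.negMulLog_zero)
  have s5 : Summable fun g => (Real.negMulLog (P g) + Real.negMulLog (P (g - c))) / 2 :=
    (s3.add s4).div_const 2
  rw [h1, (s1.sub s2).tsum_add s5, s1.tsum_sub s2, tsum_mul_right, tsum_div_const, tsum_div_const,
    tsum_div_const, hP.summable.tsum_add (sum_fin (fin_shift hP.fin c)), tsum_shift P c, hP.mass,
    s3.tsum_add s4, tsum_shift (fun g => Real.negMulLog (P g)) c]
  have h2 : ent P = ∑' g, Real.negMulLog (P g) := rfl
  have h3 : amb P c = (∑' g, Psi (P g) (P (g - c))) / 2 := rfl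
  rw [← h2, ← h3]
  ring

end Pool.Agent.NU
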