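import Pool.Agent.NU.NEb

/-!
# NEc: adding independent noise increases the ambiguity

General statement: if h_1..h_r ∈ G and λ_i ≥ 0, ∑λ_i = 1, Q g = ∑ λ_i P (g - h_i), then amb P c ≤ amb Q c:
Psi (Q g) (Q (g-c)) ≥ ∑ λ_i Psi (P (g-h_i)) (P (g-c-h_i)) by Psi_add (extended to finite sums) and Psi_mul; sum over g and translate
(each inner tsum equals ∑' g, Psi (P g) (P (g-c))). bitOp: two shifts 0, d with weights 1/2; digOp: shifts j•v with weights 1/M.
-/

open Finset

namespace Pool.Agent.NU

variable {G : Type*} [AddCommGroup G]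

/-- Superadditivity of `Psi` for finite sums. -/
theorem Psi_sum {ι : Type*} (s : Finset ι) (x y : ι → ℝ) (hx : ∀ i ∈ s, 0 ≤ x i) (hy : ∀ i ∈ s, 0 ≤ y i) :
    ∑ i ∈ s, Psi (x i) (y i) ≤ Psi (∑ i ∈ s, x i) (∑ i ∈ s, y i) := by
  classical
  induction s using Finset.induction_on with
  | empty => simp [Psi]
  | insert a s ha ih =>
    rw [Finset.sum_insert ha, Finset.sum_insert ha, Finset.sum_insert ha]
    have h1 := ih (fun i hi => hx i (Finset.mem_insert_of_mem hi)) (fun i hi => hy i (Finset.mem_insert_of_mem hi))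
    have h2 := Psi_add (hx a (Finset.mem_insert_self a s)) (hy a (Finset.mem_insert_self a s))
      (Finset.sum_nonneg fun i hi => hx i (Finset.mem_insert_of_mem hi))
      (Finset.sum_nonneg fun i hi => hy i (Finset.mem_insert_of_mem hi))
    linarith

theorem amb_mix {P : G → ℝ} (hP : IsLaw P) {ι : Type*} (s : Finset ι) (lam : ι → ℝ)
    (hl : ∀ i ∈ s, 0 ≤ lam i) (hl1 : ∑ i ∈ s, lam i = 1) (h : ι → G) (c : G) :
    amb P c ≤ amb (fun g => ∑ i ∈ s, lam i * P (g - h i)) c := by
  have hR : Summable fun g => Psi (P g) (P (g - c)) := sum_fin (fin_pair hP.fin c Psi Psi_zero_zero)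
  have hRs : ∀ i, Summable fun g => Psi (P (g - h i)) (P (g - h i - c)) := fun i =>
    sum_fin (fin_shift (P := fun g => Psi (P g) (P (g - c))) (fin_pair hP.fin c Psi Psi_zero_zero) (h i))
  have hQ : (Function.support fun g => ∑ i ∈ s, lam i * P (g - h i)).Finite := by
    have h1 : (⋃ i ∈ s, Function.support fun g => P (g - h i)).Finite :=
      Set.Finite.biUnion s.finite_toSet fun i _ => fin_shift hP.fin _
    refine h1.subset ?_
    intro g hg
    by_contra h
    simp only [Set.mem_iUnion, not_exists, Function.mem_support, not_not] at h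
    exact hg (Finset.sum_eq_zero fun i hi => by rw [h i hi, mul_zero])
  have e1 : ∑' g, Psi (P g) (P (g - c)) = ∑' g, ∑ i ∈ s, lam i * Psi (P (g - h i)) (P (g - h i - c)) := by
    rw [Summable.tsum_finsetSum fun i _ => (hRs i).mul_left (lam i)]
    have h2 : ∀ i ∈ s, ∑' g, lam i * Psi (P (g - h i)) (P (g - h i - c))
        = lam i * ∑' g, Psi (P g) (P (g - c)) := by
      intro i _
      rw [tsum_mul_left, tsum_shift (fun g => Psi (P g) (P (g - c))) (h i)]
    rw [Finset.sum_congr rfl h2, ← Finset.sum_mul, hl1, one_mul]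
  have e2 : ∑' g, ∑ i ∈ s, lam i * Psi (P (g - h i)) (P (g - h i - c))
      ≤ ∑' g, Psi (∑ i ∈ s, lam i * P (g - h i)) (∑ i ∈ s, lam i * P (g - c - h i)) := by
    refine Summable.tsum_le_tsum ?_ (summable_sum fun i _ => (hRs i).mul_left (lam i))
      (sum_fin (fin_two hQ (fin_shift hQ c) Psi Psi_zero_zero))
    intro g
    have h3 := Psi_sum s (fun i => lam i * P (g - h i)) (fun i => lam i * P (g - c - h i))
      (fun i hi => mul_nonneg (hl i hi) (hP.nonneg _)) (fun i hi => mul_nonneg (hl i hi) (hP.nonneg _))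
    refine le_trans (le_of_eq ?_) h3
    refine Finset.sum_congr rfl fun i hi => ?_
    rw [Psi_mul (hl i hi) (hP.nonneg _) (hP.nonneg _), sub_right_comm g c (h i)]
  have e3 : amb P c = (∑' g, Psi (P g) (P (g - c))) / 2 := rfl
  have e4 : amb (fun g => ∑ i ∈ s, lam i * P (g - h i)) c
      = (∑' g, Psi (∑ i ∈ s, lam i * P (g - h i)) (∑ i ∈ s, lam i * P (g - c - h i))) / 2 := rfl
  rw [e3, e4, e1]
  linarith

theorem amb_bitOp {P : G → ℝ} (hP : IsLaw P) (c d : G) : amb P c ≤ amb (bitOp d P) c := by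
  have h1 := amb_mix hP (Finset.univ : Finset Bool) (fun _ => 1 / 2) (fun _ _ => by norm_num)
    (by simp) (fun b => if b then d else 0) c
  refine le_trans h1 (le_of_eq ?_)
  congr 1
  funext g
  simp only [Fintype.sum_bool, if_true, Bool.false_eq_true, if_false, sub_zero, bitOp]
  ring

theorem amb_digOp {P : G → ℝ} (hP : IsLaw P) {M : ℕ} (hM : 1 ≤ M) (c v : G) :
    amb P c ≤ amb (digOp M v P) c := by
  have hM0 : (M : ℝ) ≠ 0 := by
    have : 0 < M := hM
    positivity
  have h1 := amb_mix hP (range M) (fun _ => 1 / (M : ℝ)) (fun _ _ => by positivity)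
    (by rw [Finset.sum_const, card_range, nsmul_eq_mul]; field_simp) (fun j => j • v) c
  refine le_trans h1 (le_of_eq ?_)
  congr 1
  funext g
  simp only [digOp]
  rw [← Finset.mul_sum]
  ring

end Pool.Agent.NU
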