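import Pool.Agent.NU.NEb

/-!
# NEd: entropy of an added digit

Put x_j(g) = P (g - j•v), s(g) = ∑_{j<M} x_j(g). digOp M v P g = s/M. negMulLog (s/M) = (s/M) log M - (s log s)/M. So
ent (digOp M v P) = log M · ∑ s/M - (1/M) ∑_g s log s = log M - (1/M)∑_g [phi(x(g)) + ∑_j x_j log x_j] = log M + ent P - (1/M)∑_g phi(x(g)),
phi = s log s - ∑ x_j log x_j. phi ≥ 0 gives ent_digOp_le. phi_le and ∑_g Psi (x_j g) (x_i g) = 2 amb P ((i-j)•v) for j < i (translate by
j•v; Psi (P g) (P (g - (i-j)•v))) give (1/M)∑_g phi ≤ (1/M)·∑_{j<i<M} 2ε = (M-1) ε (number of pairs M(M-1)/2; M ≥ 1).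
-/

open Finset

namespace Pool.Agent.NU

variable {G : Type*} [AddCommGroup G]

private theorem fin_shiftD {P : G → ℝ} (hP : IsLaw P) (c : G) : {g | P (g - c) ≠ 0}.Finite := by
  have h1 : {g | P (g - c) ≠ 0} = (fun g => g + c) '' Function.support P := by
    ext g
    constructor
    · intro h
      exact ⟨g - c, h, by simp⟩
    · rintro ⟨x, hx, rfl⟩
      simpa using hx
  rw [h1]
  exact hP.fin.image _

private theorem fin_U {P : G → ℝ} (hP : IsLaw P) (M : ℕ) (v : G) :
    {g | ∃ j ∈ range M, P (g - j • v) ≠ 0}.Finite := by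
  have h1 : {g | ∃ j ∈ range M, P (g - j • v) ≠ 0} = ⋃ j ∈ (↑(range M) : Set ℕ), {g | P (g - j • v) ≠ 0} := by
    ext g
    simp
  rw [h1]
  exact (finite_toSet _).biUnion fun j _ => fin_shiftD hP _

private theorem summ {P : G → ℝ} (hP : IsLaw P) (M : ℕ) (v : G) (F : G → ℝ)
    (hF : ∀ g, (∀ j ∈ range M, P (g - j • v) = 0) → F g = 0) : Summable F := by
  refine summable_of_hasFiniteSupport ((fin_U hP M v).subset fun g hg => ?_)
  by_contra h
  apply hg
  apply hF
  intro j hj
  by_contra h2
  exact h ⟨j, hj, h2⟩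

/-- The defect `s log s - ∑ x_j log x_j`. -/
private noncomputable def phi (M : ℕ) (v : G) (P : G → ℝ) (g : G) : ℝ :=
  (∑ j ∈ range M, P (g - j • v)) * Real.log (∑ j ∈ range M, P (g - j • v))
    - ∑ j ∈ range M, P (g - j • v) * Real.log (P (g - j • v))

private theorem key {P : G → ℝ} (hP : IsLaw P) {M : ℕ} (hM : 1 ≤ M) (v : G) :
    ent (digOp M v P) = ent P + Real.log M - (∑' g, phi M v P g) / M := by
  have hM0 : (M : ℝ) ≠ 0 := by positivity
  have h1 : ∀ g, Real.negMulLog (digOp M v P g) =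
      Real.log M * digOp M v P g - (phi M v P g + ∑ j ∈ range M, P (g - j • v) * Real.log (P (g - j • v))) / M := by
    intro g
    unfold digOp phi Real.negMulLog
    rw [sub_add_cancel]
    by_cases h0 : (∑ j ∈ range M, P (g - j • v)) = 0
    · rw [h0]; simp
    · rw [Real.log_div h0 hM0]
      ring
  have hs1 : Summable (digOp M v P) := by
    apply summ hP M v
    intro g hg
    unfold digOp
    rw [sum_eq_zero hg]
    simp
  have hs2 : Summable (phi M v P) := by
    apply summ hP M v
    intro g hg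
    unfold phi
    rw [sum_eq_zero hg, sum_eq_zero fun j hj => by rw [hg j hj]; simp]
    simp
  have hs3 : ∀ j ∈ range M, Summable fun g => P (g - j • v) * Real.log (P (g - j • v)) := by
    intro j hj
    apply summ hP M v
    intro g hg
    rw [hg j hj]; simp
  have h2 : ∑' g, ∑ j ∈ range M, P (g - j • v) * Real.log (P (g - j • v)) = (M : ℝ) * (-ent P) := by
    rw [Summable.tsum_finsetSum hs3]
    have h3 : ∀ j ∈ range M, ∑' g, P (g - j • v) * Real.log (P (g - j • v)) = -ent P := by
      intro j _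
      have h4 := (Equiv.subRight (j • v)).tsum_eq (fun g => P g * Real.log (P g))
      have h5 : (fun g => P (g - j • v) * Real.log (P (g - j • v))) =
          fun g => P (Equiv.subRight (j • v) g) * Real.log (P (Equiv.subRight (j • v) g)) := rfl
      rw [h5, h4]
      unfold ent Real.negMulLog
      rw [← tsum_neg]
      congr 1
      funext g
      ring
    rw [sum_congr rfl h3]
    simp
  unfold ent at *
  rw [tsum_congr h1]
  have hs4 : Summable fun g => ∑ j ∈ range M, P (g - j • v) * Real.log (P (g - j • v)) := summable_sum hs3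
  rw [Summable.tsum_sub (hs1.mul_left _) ((hs2.add hs4).div_const _), tsum_mul_left, tsum_div_const,
    Summable.tsum_add hs2 hs4, h2, (hP.digOp hM v).mass]
  field_simp
  ring

theorem ent_digOp_le {P : G → ℝ} (hP : IsLaw P) {M : ℕ} (hM : 1 ≤ M) (v : G) :
    ent (digOp M v P) ≤ ent P + Real.log M := by
  rw [key hP hM v]
  have h1 : 0 ≤ ∑' g, phi M v P g := tsum_nonneg fun g =>
    phi_nonneg (fun j => P (g - j • v)) fun j => hP.nonneg _
  have h2 : 0 ≤ (∑' g, phi M v P g) / M := div_nonneg h1 (Nat.cast_nonneg _)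
  linarith

theorem ent_digOp_ge {P : G → ℝ} (hP : IsLaw P) {M : ℕ} (hM : 1 ≤ M) (v : G) {ε : ℝ}
    (h : ∀ j : ℕ, 1 ≤ j → j < M → amb P (j • v) ≤ ε) :
    ent P + Real.log M - (M - 1) * ε ≤ ent (digOp M v P) := by
  rw [key hP hM v]
  have hM0 : (0 : ℝ) < M := by exact_mod_cast hM
  have hs : ∀ i ∈ range M, ∀ j ∈ range i, Summable fun g => Psi (P (g - j • v)) (P (g - i • v)) := by
    intro i hi j hj
    apply summ hP M v
    intro g hg
    rw [hg i hi, Psi_zero_right]
  have hs2 : Summable (phi M v P) := by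
    apply summ hP M v
    intro g hg
    unfold phi
    rw [sum_eq_zero hg, sum_eq_zero fun j hj => by rw [hg j hj]; simp]
    simp
  have h1 : ∑' g, phi M v P g ≤ ∑' g, ∑ i ∈ range M, ∑ j ∈ range i, Psi (P (g - j • v)) (P (g - i • v)) := by
    refine Summable.tsum_le_tsum (fun g => ?_) hs2 (summable_sum fun i hi => summable_sum fun j hj => hs i hi j hj)
    exact phi_le (fun j => P (g - j • v)) fun j => hP.nonneg _
  have h2 : ∀ i ∈ range M, ∀ j ∈ range i, ∑' g, Psi (P (g - j • v)) (P (g - i • v)) ≤ 2 * ε := by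
    intro i hi j hj
    have hji := mem_range.1 hj
    have hiM := mem_range.1 hi
    have h3 := (Equiv.subRight (j • v)).tsum_eq (fun g => Psi (P g) (P (g - (i - j) • v)))
    have h4 : (fun g => Psi (P (g - j • v)) (P (g - i • v))) =
        fun g => Psi (P (Equiv.subRight (j • v) g)) (P (Equiv.subRight (j • v) g - (i - j) • v)) := by
      funext g
      have h5 : Equiv.subRight (j • v) g - (i - j) • v = g - i • v := by
        have h6 : i • v = j • v + (i - j) • v := by
          rw [← add_smul, Nat.add_sub_cancel' hji.le]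
        rw [Equiv.subRight_apply, h6]
        abel
      rw [h5, Equiv.subRight_apply]
    rw [h4, h3]
    have h7 := h (i - j) (by omega) (by omega)
    unfold amb at h7
    linarith
  have h3 : ∑' g, ∑ i ∈ range M, ∑ j ∈ range i, Psi (P (g - j • v)) (P (g - i • v)) ≤ M * (M - 1) * ε := by
    rw [Summable.tsum_finsetSum fun i hi => summable_sum fun j hj => hs i hi j hj]
    have h4 : ∀ i ∈ range M, ∑' g, ∑ j ∈ range i, Psi (P (g - j • v)) (P (g - i • v)) ≤ (i : ℝ) * (2 * ε) := by
      intro i hi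
      rw [Summable.tsum_finsetSum fun j hj => hs i hi j hj]
      refine (sum_le_sum fun j hj => h2 i hi j hj).trans ?_
      simp
    refine (sum_le_sum h4).trans (le_of_eq ?_)
    rw [← sum_mul]
    have h5 : (∑ i ∈ range M, (i : ℝ)) * 2 = M * (M - 1) := by
      have h6 := Finset.sum_range_id_mul_two M
      have h7 : ((∑ i ∈ range M, i : ℕ) : ℝ) * 2 = (M : ℝ) * ((M - 1 : ℕ) : ℝ) := by exact_mod_cast h6
      rw [Nat.cast_sub hM, Nat.cast_sum] at h7
      simpa using h7
    linear_combination ε * h5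
  have h4 : (∑' g, phi M v P g) / M ≤ (M - 1) * ε := by
    rw [div_le_iff₀ hM0]
    linarith [h1.trans h3]
  linarith

end Pool.Agent.NU
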