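import Pool.Agent.NU.NEc

/-!
# NEe: a law absorbs few independent directions; entropy and support

amb_sum_le: for a finset U ⊆ W let P_U = law of P plus independent bits times j•w, w ∈ U. Define directly
P_U g = (1/2)^|U| ∑_{C ∈ U.powerset} P (g - ∑_{x∈C} j • x). Then P_∅ = P, P_{insert w U} = bitOp (j•w) P_U (w ∉ U), each P_U is a law,
amb P c ≤ amb P_U c (induction with amb_bitOp), so ent P_{insert w U} ≤ ent P_U + log 2 - ε (ent_bitOp), hence
ent P_W ≤ ent P + |W|(log 2 - ε). On the other hand the points g - ∑_{x∈C} j•x, C ⊆ W, are distinct by hW, so P_W g ≤ 2^{-|W|} · 1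
(IsLaw.sum_le_one) and ent P_W = ∑ P_W · (-log P_W) ≥ |W| log 2. 
ent_le_log_card: P is supported in S, N = |S| > 0. For p = P g > 0: negMulLog p - p log N = p log(1/(pN)) ≤ p(1/(pN) - 1) = 1/N - p;
for p = 0, g ∈ S the inequality negMulLog p - p log N ≤ 1/N - p is trivial. Sum over S: ent P - log N ≤ 1 - 1 = 0.
-/

open Finset

namespace Pool.Agent.NU

variable {G : Type*} [AddCommGroup G]

/-- The law of `P` plus independent bits times `j • w`, `w ∈ U`. -/
private noncomputable def pu (P : G → ℝ) (j : ℕ) (U : Finset G) (g : G) : ℝ := by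
  classical exact (∑ C ∈ U.powerset, P (g - ∑ x ∈ C, j • x)) / 2 ^ U.card

private theorem pu_empty (P : G → ℝ) (j : ℕ) : pu P j ∅ = P := by
  classical
  funext g
  simp [pu]

private theorem pu_insert [DecidableEq G] (P : G → ℝ) (j : ℕ) (U : Finset G) (w : G) (hw : w ∉ U) :
    pu P j (insert w U) = bitOp (j • w) (pu P j U) := by
  funext g
  unfold pu bitOp
  have h1 : ∑ C ∈ (insert w U).powerset, P (g - ∑ x ∈ C, j • x) =
      ∑ C ∈ U.powerset, P (g - ∑ x ∈ C, j • x) + ∑ C ∈ U.powerset, P (g - j • w - ∑ x ∈ C, j • x) := by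
    rw [sum_powerset_insert hw]
    congr 1
    refine sum_congr rfl fun C hC => ?_
    have h2 : w ∉ C := fun h => hw (mem_powerset.1 hC h)
    rw [sum_insert h2, sub_sub]
  have h3 : (∑ C ∈ (insert w U).powerset, P (g - ∑ x ∈ C, j • x)) / 2 ^ (insert w U).card =
      ((∑ C ∈ U.powerset, P (g - ∑ x ∈ C, j • x)) / 2 ^ U.card +
        (∑ C ∈ U.powerset, P (g - j • w - ∑ x ∈ C, j • x)) / 2 ^ U.card) / 2 := by
    rw [h1, card_insert_of_notMem hw, pow_succ]
    field_simp
  convert h3 using 3

theorem amb_sum_le {P : G → ℝ} (hP : IsLaw P) (W : Finset G) (j : ℕ)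
    (hW : ∀ C D : Finset G, C ⊆ W → D ⊆ W → (∑ x ∈ C, j • x) = (∑ x ∈ D, j • x) → C = D)
    {ε : ℝ} (h : ∀ w ∈ W, ε ≤ amb P (j • w)) : (W.card : ℝ) * ε ≤ ent P := by
  classical
  have h1 : ∀ U : Finset G, U ⊆ W → IsLaw (pu P j U) ∧ (∀ c, amb P c ≤ amb (pu P j U) c) ∧
      ent (pu P j U) ≤ ent P + U.card * (Real.log 2 - ε) := by
    intro U
    induction U using Finset.induction_on with
    | empty =>
      intro _
      rw [pu_empty]
      refine ⟨hP, fun c => le_rfl, by simp⟩
    | insert w U hw ih =>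
      intro hU
      obtain ⟨i1, i2, i3⟩ := ih ((subset_insert w U).trans hU)
      rw [pu_insert P j U w hw]
      refine ⟨i1.bitOp _, fun c => (i2 c).trans (amb_bitOp i1 c _), ?_⟩
      rw [ent_bitOp i1, card_insert_of_notMem hw]
      have h2 := (h w (hU (mem_insert_self w U))).trans (i2 (j • w))
      push_cast
      linarith
  obtain ⟨k1, _, k3⟩ := h1 W (Subset.refl W)
  have h2 : ∀ g, pu P j W g ≤ 1 / 2 ^ W.card := by
    intro g
    have h3 : ∑ C ∈ W.powerset, P (g - ∑ x ∈ C, j • x) ≤ 1 := by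
      have h4 : Set.InjOn (fun C : Finset G => g - ∑ x ∈ C, j • x) (W.powerset : Set (Finset G)) := by
        intro C hC D hD hCD
        have h5 : (∑ x ∈ C, j • x) = ∑ x ∈ D, j • x := by
          have h6 : g - ∑ x ∈ C, j • x = g - ∑ x ∈ D, j • x := hCD
          exact sub_right_injective h6
        exact hW C D (mem_powerset.1 hC) (mem_powerset.1 hD) h5
      rw [← sum_image (f := P) h4]
      exact hP.sum_le_one _
    have h4 : pu P j W g = (∑ C ∈ W.powerset, P (g - ∑ x ∈ C, j • x)) / 2 ^ W.card := rfl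
    rw [h4]
    exact div_le_div_of_nonneg_right h3 (by positivity)
  have h3 : (W.card : ℝ) * Real.log 2 ≤ ent (pu P j W) := by
    have h4 : ∀ g, (W.card : ℝ) * Real.log 2 * pu P j W g ≤ Real.negMulLog (pu P j W g) := by
      intro g
      rcases (k1.nonneg g).eq_or_lt with h0 | h0
      · rw [← h0]; simp
      · have h5 := Real.log_le_log h0 (h2 g)
        rw [one_div, Real.log_inv, Real.log_pow] at h5
        unfold Real.negMulLog
        nlinarith
    have h5 : Summable (pu P j W) := summable_of_hasFiniteSupport k1.fin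
    have h6 : Summable fun g => Real.negMulLog (pu P j W g) := by
      refine summable_of_hasFiniteSupport (k1.fin.subset fun g hg => ?_)
      intro h7
      apply hg
      show Real.negMulLog (pu P j W g) = 0
      rw [h7]
      simp
    have h7 := Summable.tsum_le_tsum h4 (h5.mul_left _) h6
    rw [tsum_mul_left, k1.mass, mul_one] at h7
    exact h7
  nlinarith

theorem ent_le_log_card {P : G → ℝ} (hP : IsLaw P) (S : Finset G) (hS : ∀ g, P g ≠ 0 → g ∈ S) :
    ent P ≤ Real.log S.card := by
  have h1 : ∑' g, P g = ∑ g ∈ S, P g := tsum_eq_sum fun g hg => by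
    by_contra h
    exact hg (hS g h)
  have h2 : ent P = ∑ g ∈ S, Real.negMulLog (P g) := tsum_eq_sum fun g hg => by
    have h3 : P g = 0 := by
      by_contra h
      exact hg (hS g h)
    rw [h3]
    simp
  have hN : 0 < S.card := by
    rcases Nat.eq_zero_or_pos S.card with h | h
    · rw [card_eq_zero.1 h, hP.mass] at h1
      simp at h1
    · exact h
  have hN' : (0 : ℝ) < S.card := by exact_mod_cast hN
  have h3 : ∀ g ∈ S, Real.negMulLog (P g) - P g * Real.log S.card ≤ 1 / S.card - P g := by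
    intro g _
    rcases (hP.nonneg g).eq_or_lt with h0 | h0
    · rw [← h0]
      simp
    · have h4 := Real.log_le_sub_one_of_pos (show 0 < 1 / (P g * S.card) by positivity)
      rw [one_div, Real.log_inv, Real.log_mul h0.ne' hN'.ne'] at h4
      have h5 := mul_le_mul_of_nonneg_left h4 h0.le
      have h6 : P g * ((P g * S.card)⁻¹ - 1) = 1 / S.card - P g := by
        field_simp
      rw [h6] at h5
      unfold Real.negMulLog
      linarith
  have h4 := sum_le_sum h3
  rw [sum_sub_distrib, sum_sub_distrib, ← sum_mul, ← h2, ← h1, hP.mass, sum_const, nsmul_eq_mul,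
    mul_one_div_cancel hN'.ne'] at h4
  linarith

end Pool.Agent.NU
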