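import Pool.Agent.NU.NEd

/-!
# NLa: the law of a digit sum

Dig M A = A.finsupp (fun _ => range M); Finset.mem_finsupp_iff, Finset.card_finsupp.
law_insert (a ∉ A): digit vectors f on insert a A correspond to pairs (f' on A, j < M), f = f' + single a j (or f'.update a j), and
sig f = sig f' + j • a. So #{f : sig f = g} = ∑_{j<M} #{f' : sig f' = g - j•a}; divide by M^{|A|+1}.
law_empty: Dig M ∅ = {0}, sig 0 = 0. isLaw_law, ent_law_le: induction (Finset.induction_on) with IsLaw.digOp, ent_digOp_le;
ent of the point mass is 0 (negMulLog 1 = 0, negMulLog 0 = 0).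
law_support: law M A g ≠ 0 → g ∈ (Dig M A).image sig.
-/

open Finset

namespace Pool.Agent.NU

variable {G : Type*} [AddCommGroup G]

private theorem mem_Dig_NLa {M : ℕ} {A : Finset G} {f : G →₀ ℕ} :
    f ∈ Dig M A ↔ f.support ⊆ A ∧ ∀ a ∈ A, f a < M := by
  classical
  unfold Dig
  rw [Finset.mem_finsupp_iff]
  simp only [mem_range]

private theorem sig_add_NLa (f h : G →₀ ℕ) : sig (f + h) = sig f + sig h := by
  classical
  unfold sig
  exact Finsupp.sum_add_index' (fun a => zero_nsmul a) (fun a m n => add_nsmul a m n)

private theorem sig_single_NLa (a : G) (j : ℕ) : sig (Finsupp.single a j) = j • a := by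
  unfold sig
  exact Finsupp.sum_single_index (zero_nsmul a)

private theorem sig_zero_NLa : sig (0 : G →₀ ℕ) = 0 := by
  unfold sig
  exact Finsupp.sum_zero_index

private theorem law_eq_NLa (M : ℕ) (A : Finset G) (g : G)
    [inst : DecidablePred fun f : G →₀ ℕ => sig f = g] :
    law M A g = (((Dig M A).filter fun f => sig f = g).card : ℝ) / (M : ℝ) ^ A.card := by
  unfold law
  rw [Subsingleton.elim (fun f : G →₀ ℕ => Classical.propDecidable (sig f = g)) inst]

private theorem Dig_empty_NLa (M : ℕ) : Dig M (∅ : Finset G) = {0} := by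
  ext f
  rw [mem_Dig_NLa, mem_singleton]
  constructor
  · rintro ⟨h, -⟩
    exact Finsupp.support_eq_empty.mp (subset_empty.mp h)
  · rintro rfl
    exact ⟨by simp, fun a ha => absurd ha (notMem_empty a)⟩

theorem law_empty [DecidableEq G] (M : ℕ) (g : G) :
    law M (∅ : Finset G) g = if g = 0 then 1 else 0 := by
  rw [law_eq_NLa]
  rw [Dig_empty_NLa]
  by_cases hg : g = 0
  · rw [if_pos hg, filter_true_of_mem]
    · simp
    · intro f hf
      rw [mem_singleton.mp hf, sig_zero_NLa, hg]
  · rw [if_neg hg, filter_false_of_mem]
    · simp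
    · intro f hf
      rw [mem_singleton.mp hf, sig_zero_NLa]
      exact fun h => hg h.symm

theorem isLaw_empty (M : ℕ) : IsLaw (law M (∅ : Finset G)) := by
  classical
  have h : law M (∅ : Finset G) = fun g => if g = 0 then 1 else 0 := funext (law_empty M)
  rw [h]
  refine ⟨fun g => ?_, ?_, ?_⟩
  · show (0 : ℝ) ≤ if g = 0 then 1 else 0
    split_ifs <;> norm_num
  · refine (Set.finite_singleton (0 : G)).subset fun g hg => ?_
    rw [Function.mem_support] at hg
    by_contra hne
    exact hg (if_neg hne)
  · rw [tsum_eq_single 0 (fun g hg => if_neg hg)]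
    exact if_pos rfl

theorem ent_law_empty (M : ℕ) : ent (law M (∅ : Finset G)) = 0 := by
  classical
  unfold ent
  have h : ∀ g, Real.negMulLog (law M (∅ : Finset G) g) = 0 := by
    intro g
    rw [law_empty]
    split_ifs
    · exact Real.negMulLog_one
    · exact Real.negMulLog_zero
  simp only [h, tsum_zero]

theorem law_insert [DecidableEq G] {M : ℕ} (hM : 1 ≤ M) {A : Finset G} {a : G} (ha : a ∉ A) :
    law M (insert a A) = digOp M a (law M A) := by
  classical
  funext g
  unfold digOp
  simp only [law_eq_NLa]
  rw [card_insert_of_notMem ha, ← sum_div, div_div, ← pow_succ]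
  congr 1
  rw [← Nat.cast_sum, Nat.cast_inj]
  rw [card_eq_sum_card_fiberwise (f := fun f : G →₀ ℕ => f a) (t := range M)]
  · refine sum_congr rfl fun j hj => ?_
    rw [mem_range] at hj
    refine card_bij' (fun f _ => f.erase a) (fun f _ => f + Finsupp.single a j) ?_ ?_ ?_ ?_
    · intro f hf
      simp only [mem_filter, mem_Dig_NLa] at hf ⊢
      obtain ⟨⟨⟨h1, h2⟩, h3⟩, h4⟩ := hf
      refine ⟨⟨?_, ?_⟩, ?_⟩
      · intro b hb
        rw [Finsupp.support_erase, mem_erase] at hb
        have := h1 hb.2
        rw [mem_insert] at this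
        exact this.resolve_left hb.1
      · intro b hb
        have hba : b ≠ a := by
          rintro rfl
          exact ha hb
        rw [Finsupp.erase_ne hba]
        exact h2 b (mem_insert_of_mem hb)
      · rw [eq_sub_iff_add_eq, ← h3, ← sig_single_NLa a j, ← sig_add_NLa, ← h4,
          Finsupp.erase_add_single]
    · intro f hf
      simp only [mem_filter, mem_Dig_NLa] at hf ⊢
      obtain ⟨⟨h1, h2⟩, h3⟩ := hf
      have hfa : f a = 0 := by
        rw [← Finsupp.notMem_support_iff]
        exact fun h => ha (h1 h)
      refine ⟨⟨⟨?_, ?_⟩, ?_⟩, ?_⟩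
      · intro b hb
        rw [mem_insert]
        by_cases hba : b = a
        · exact Or.inl hba
        · right
          apply h1
          rw [Finsupp.mem_support_iff] at hb ⊢
          rwa [Finsupp.add_apply, Finsupp.single_eq_of_ne hba, add_zero] at hb
      · intro b hb
        by_cases hba : b = a
        · rw [hba, Finsupp.add_apply, Finsupp.single_eq_same, hfa, zero_add]
          exact hj
        · rw [Finsupp.add_apply, Finsupp.single_eq_of_ne hba, add_zero]
          rw [mem_insert] at hb
          exact h2 b (hb.resolve_left hba)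
      · rw [sig_add_NLa, sig_single_NLa, h3, sub_add_cancel]
      · rw [Finsupp.add_apply, Finsupp.single_eq_same, hfa, zero_add]
    · intro f hf
      simp only [mem_filter, mem_Dig_NLa] at hf
      show f.erase a + Finsupp.single a j = f
      rw [← hf.2, Finsupp.erase_add_single]
    · intro f hf
      simp only [mem_filter, mem_Dig_NLa] at hf
      have hfa : f a = 0 := by
        rw [← Finsupp.notMem_support_iff]
        exact fun h => ha (hf.1.1 h)
      show (f + Finsupp.single a j).erase a = f
      ext b
      by_cases hba : b = a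
      · rw [hba, Finsupp.erase_same, hfa]
      · rw [Finsupp.erase_ne hba, Finsupp.add_apply, Finsupp.single_eq_of_ne hba, add_zero]
  · intro f hf
    simp only [coe_filter, Set.mem_setOf_eq, mem_Dig_NLa] at hf
    simp only [coe_range, Set.mem_Iio]
    exact hf.1.2 a (mem_insert_self a A)

theorem isLaw_law {M : ℕ} (hM : 1 ≤ M) (A : Finset G) : IsLaw (law M A) := by
  classical
  induction A using Finset.induction_on with
  | empty => exact isLaw_empty M
  | insert a A ha ih =>
    rw [law_insert hM ha]
    exact ih.digOp hM a

theorem ent_law_le {M : ℕ} (hM : 1 ≤ M) (A : Finset G) : ent (law M A) ≤ A.card * Real.log M := by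
  classical
  induction A using Finset.induction_on with
  | empty => rw [ent_law_empty]; simp
  | insert a A ha ih =>
    rw [law_insert hM ha, card_insert_of_notMem ha]
    have h1 := ent_digOp_le (isLaw_law hM A) hM a
    calc ent (digOp M a (law M A)) ≤ ent (law M A) + Real.log M := h1
      _ ≤ A.card * Real.log M + Real.log M := by linarith
      _ = ((A.card + 1 : ℕ) : ℝ) * Real.log M := by push_cast; ring

theorem law_support [DecidableEq G] {M : ℕ} (A : Finset G) {g : G} (hg : law M A g ≠ 0) :
    g ∈ (Dig M A).image sig := by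
  rw [mem_image]
  by_contra hne
  apply hg
  rw [law_eq_NLa]
  rw [filter_false_of_mem]
  · simp
  · intro f hf h
    exact hne ⟨f, hf, h⟩

end Pool.Agent.NU
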