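import Pool.Agent.NU.NLa
import Pool.Agent.NU.NEe

/-!
# NLb: absorption is monotone and bounded

Abs.mono: B is obtained from A by inserting the elements of B \ A one by one (Finset.induction on B \ A, or
Finset.induction_on_union); law_insert and amb_digOp.
card_abs_le: for j with 1 ≤ j < M let W_j = {w ∈ W : ε ≤ amb (law M A) (j•w)}; W = ⋃ W_j, so |W| ≤ ∑_{j ∈ Ico 1 M} |W_j|.
Proportional gives W' ⊆ W_j with distinct subset sums, δ|W_j| ≤ |W'|; j • is injective on G (IsAddTorsionFree, j ≥ 1), so the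
hypothesis hW of amb_sum_le holds for W' (∑ j•x = j•∑x); hence δ ε |W_j| ≤ |W'| ε ≤ ent (law M A) ≤ |A| log M.
Sum over the M - 1 values of j.
-/

open Finset

namespace Pool.Agent.NU

variable {G : Type*} [AddCommGroup G]

private theorem amb_union_le [DecidableEq G] {M : ℕ} (hM : 1 ≤ M) (A : Finset G) (c : G)
    (C : Finset G) : amb (law M A) c ≤ amb (law M (A ∪ C)) c := by
  induction C using Finset.induction_on with
  | empty => rw [Finset.union_empty]
  | insert a C' ha ih =>
    rw [Finset.union_insert]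
    by_cases haA : a ∈ A ∪ C'
    · rw [Finset.insert_eq_of_mem haA]
      exact ih
    · rw [law_insert hM haA]
      exact ih.trans (amb_digOp (isLaw_law hM _) hM c a)

theorem Abs.mono {M : ℕ} (hM : 1 ≤ M) {ε : ℝ} {A B : Finset G} (hAB : A ⊆ B) {v : G}
    (h : Abs M ε A v) : Abs M ε B v := by
  classical
  obtain ⟨j, hj1, hj2, hj⟩ := h
  refine ⟨j, hj1, hj2, hj.trans ?_⟩
  have h1 := amb_union_le hM A (j • v) B
  rwa [Finset.union_eq_right.2 hAB] at h1

theorem card_abs_le [IsAddTorsionFree G] {M : ℕ} (hM : 1 ≤ M) {ε δ : ℝ} (hε : 0 < ε) (hδ : 0 < δ)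
    {Λ : Set G} (hΛ : Proportional δ Λ) (A W : Finset G) (hW : (↑W : Set G) ⊆ Λ)
    (h : ∀ w ∈ W, Abs M ε A w) :
    δ * ε * (W.card : ℝ) ≤ (M - 1) * (A.card * Real.log M) := by
  classical
  have hcov : W ⊆ (Finset.Ico 1 M).biUnion fun j =>
      W.filter fun w => ε ≤ amb (law M A) (j • w) := by
    intro w hw
    obtain ⟨j, hj1, hj2, hj⟩ := h w hw
    rw [Finset.mem_biUnion]
    exact ⟨j, Finset.mem_Ico.2 ⟨hj1, hj2⟩, Finset.mem_filter.2 ⟨hw, hj⟩⟩
  have hcard : (W.card : ℝ) ≤
      ∑ j ∈ Finset.Ico 1 M, ((W.filter fun w => ε ≤ amb (law M A) (j • w)).card : ℝ) := by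
    have h1 := (Finset.card_le_card hcov).trans Finset.card_biUnion_le
    exact_mod_cast h1
  have hj : ∀ j ∈ Finset.Ico 1 M,
      δ * ε * ((W.filter fun w => ε ≤ amb (law M A) (j • w)).card : ℝ) ≤
        A.card * Real.log M := by
    intro j hj
    have hj1 : 1 ≤ j := (Finset.mem_Ico.1 hj).1
    obtain ⟨B, hB, hBd, hBc⟩ := hΛ (W.filter fun w => ε ≤ amb (law M A) (j • w)) (by
      intro x hx
      exact hW (Finset.mem_coe.2 (Finset.filter_subset _ _ (Finset.mem_coe.1 hx))))
    have h1 := amb_sum_le (isLaw_law hM A) B j (by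
      intro C D hC hD hCD
      apply hBd C D hC hD
      rw [← Finset.smul_sum, ← Finset.smul_sum] at hCD
      exact nsmul_right_injective (by omega) hCD) (ε := ε) (by
      intro w hw
      exact (Finset.mem_filter.1 (hB hw)).2)
    have h2 := ent_law_le hM A
    have h3 := mul_le_mul_of_nonneg_right hBc hε.le
    linarith
  calc δ * ε * (W.card : ℝ)
      ≤ δ * ε * ∑ j ∈ Finset.Ico 1 M,
          ((W.filter fun w => ε ≤ amb (law M A) (j • w)).card : ℝ) :=
        mul_le_mul_of_nonneg_left hcard (by positivity)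
    _ = ∑ j ∈ Finset.Ico 1 M,
          δ * ε * ((W.filter fun w => ε ≤ amb (law M A) (j • w)).card : ℝ) := by
        rw [Finset.mul_sum]
    _ ≤ ∑ _j ∈ Finset.Ico 1 M, (A.card * Real.log M : ℝ) := Finset.sum_le_sum hj
    _ = (M - 1) * (A.card * Real.log M) := by
        rw [Finset.sum_const, Nat.card_Ico, nsmul_eq_mul, Nat.cast_sub hM, Nat.cast_one]

end Pool.Agent.NU
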