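import Pool.Agent.NU.NLa

/-!
# NLc: coreless sets have nearly full entropy

Induction on |A|. A = ∅: both sides 0 (ent_law_empty). Otherwise hT gives v ∈ A with ¬Abs M ε (A.erase v) v, i.e.
amb (law M (A.erase v)) (j•v) < ε for all 1 ≤ j < M. law M A = digOp M v (law M (A.erase v)) (law_insert), ent_digOp_ge and the
induction hypothesis for A.erase v.
-/

open Finset

namespace Pool.Agent.NU

variable {G : Type*} [AddCommGroup G]

theorem ent_ge_of_coreless [DecidableEq G] {M : ℕ} (hM : 1 ≤ M) {ε : ℝ} (T : Set G)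
    (hT : ∀ C : Finset G, C.Nonempty → (↑C : Set G) ⊆ T → ∃ v ∈ C, ¬ Abs M ε (C.erase v) v)
    (A : Finset G) (hA : (↑A : Set G) ⊆ T) :
    A.card * (Real.log M - (M - 1) * ε) ≤ ent (law M A) := by
  induction hn : A.card generalizing A with
  | zero =>
    rw [Finset.card_eq_zero] at hn
    subst hn
    rw [ent_law_empty]
    simp
  | succ n ih =>
    have hne : A.Nonempty := by
      rw [← Finset.card_pos, hn]
      exact Nat.succ_pos n
    obtain ⟨v, hv, hv2⟩ := hT A hne hA
    have h1 := ih (A.erase v) (fun x hx => hA (Finset.mem_of_mem_erase hx))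
      (by rw [Finset.card_erase_of_mem hv, hn]; rfl)
    have h2 : ∀ j : ℕ, 1 ≤ j → j < M → amb (law M (A.erase v)) (j • v) ≤ ε := by
      intro j hj1 hj2
      by_contra h
      exact hv2 ⟨j, hj1, hj2, (not_le.mp h).le⟩
    have h3 := ent_digOp_ge (isLaw_law hM (A.erase v)) hM v h2
    rw [← law_insert hM (Finset.notMem_erase v A), Finset.insert_erase hv] at h3
    push_cast
    linarith

end Pool.Agent.NU
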