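import Pool.Agent.NU.Def

/-!
# NSb: minimal representatives: shattered sets are m-independent

Enumerate A: e : G → ℕ injective on A (e.g. from A.equivFin). Weight W f = ∑_{a∈A} f a * (2m+1)^(e a). For each g in the image of sig on
Dig M A choose f_g ∈ Dig M A with sig f_g = g and W f_g minimal (Finset.exists_min_image); F = set of these, |F| = |image|.
Let B ⊆ A be shattered and c : G → ℤ with |c b| ≤ m on B, ∑_{b∈B} c b • b = 0, not all 0 on B. Then
s := ∑_{b∈B} c b (2m+1)^(e b) ≠ 0: for b0 ∈ B with c b0 ≠ 0 and e b0 minimal, s ≡ c b0 (2m+1)^(e b0) mod (2m+1)^(e b0 + 1), and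
|c b0| ≤ m < 2m+1. Replacing c by -c assume s > 0. Take S = {b ∈ B : 0 < c b} and f ∈ F with m ≤ f on S, f + m < M on B \ S. Then
f' = f - c (on B; f' = f outside B) is a digit vector on A: for b ∈ S 0 ≤ f b - c b < M, for b ∈ B \ S f b - c b = f b + |c b| < M.
sig f' = sig f and W f' = W f - s < W f: contradiction to minimality. (sig f = ∑_{a ∈ A} f a • a for f ∈ Dig M A.)
-/

open Finset

namespace Pool.Agent.NU

private theorem nsb_mem_Dig {G : Type*} [AddCommGroup G] {M : ℕ} {A : Finset G} {f : G →₀ ℕ} :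
    f ∈ Dig M A ↔ f.support ⊆ A ∧ ∀ a ∈ A, f a < M := by
  classical
  unfold Dig
  rw [Finset.mem_finsupp_iff]
  simp only [Finset.mem_range]

private theorem nsb_sig_eq {G : Type*} [AddCommGroup G] {A : Finset G} {f : G →₀ ℕ}
    (hf : f.support ⊆ A) : sig f = ∑ a ∈ A, f a • a := by
  unfold sig
  exact Finsupp.sum_of_support_subset f hf _ (fun a _ => zero_smul _ a)

private theorem nsb_ne {G : Type*} [DecidableEq G] (m : ℕ) (e : G → ℕ) (B : Finset G)
    (he : Set.InjOn e (B : Set G)) (c : G → ℤ) (hc : ∀ b ∈ B, |c b| ≤ m)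
    (h : ∑ b ∈ B, c b * (2 * (m : ℤ) + 1) ^ (e b) = 0) : ∀ b ∈ B, c b = 0 := by
  by_contra hcon
  push Not at hcon
  obtain ⟨b1, hb1, hb1'⟩ := hcon
  have hne : (B.filter (fun b => c b ≠ 0)).Nonempty := ⟨b1, by simp [hb1, hb1']⟩
  obtain ⟨b0, hb0, hmin⟩ := Finset.exists_min_image _ e hne
  rw [mem_filter] at hb0
  set q : ℤ := 2 * (m : ℤ) + 1 with hqdef
  have hdiv : q ^ (e b0 + 1) ∣ ∑ b ∈ B.erase b0, c b * q ^ (e b) := by
    apply Finset.dvd_sum
    intro b hb
    rw [mem_erase] at hb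
    by_cases hcb : c b = 0
    · rw [hcb, zero_mul]; exact dvd_zero _
    · have h1 := hmin b (mem_filter.2 ⟨hb.2, hcb⟩)
      have h2 : e b0 ≠ e b := fun hh => hb.1 (he hb.2 hb0.1 hh.symm)
      exact Dvd.dvd.mul_left (pow_dvd_pow q (by omega)) _
  rw [← Finset.add_sum_erase B _ hb0.1] at h
  have h3 : q ^ (e b0 + 1) ∣ c b0 * q ^ (e b0) := by
    have h31 : c b0 * q ^ (e b0) = - ∑ b ∈ B.erase b0, c b * q ^ (e b) := by linarith
    rw [h31]
    exact (dvd_neg).2 hdiv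
  have hq : 0 < q := by positivity
  rw [pow_succ, mul_comm (c b0)] at h3
  have h4 : q ∣ c b0 := (mul_dvd_mul_iff_left (pow_ne_zero _ hq.ne')).1 h3
  have h5 : |c b0| < q := lt_of_le_of_lt (hc b0 hb0.1) (by rw [hqdef]; linarith [Int.natCast_nonneg m])
  exact hb0.2 (Int.eq_zero_of_abs_lt_dvd h4 h5)

private theorem nsb_split {G : Type*} {R : Type*} [AddCommGroup R] [DecidableEq G]
    (A B : Finset G) (hBA : B ⊆ A) (f f' : G → ℕ) (c : G → ℤ)
    (hval : ∀ a, (f' a : ℤ) = (f a : ℤ) - (if a ∈ B then c a else 0)) (v : G → R) :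
    ∑ a ∈ A, (f' a : ℤ) • v a = ∑ a ∈ A, (f a : ℤ) • v a - ∑ b ∈ B, c b • v b := by
  have hB : ∑ b ∈ B, c b • v b = ∑ a ∈ A, (if a ∈ B then c a else 0) • v a := by
    rw [← Finset.sum_subset hBA]
    · apply Finset.sum_congr rfl
      intro b hb
      rw [if_pos hb]
    · intro a _ ha
      rw [if_neg ha, zero_smul]
  rw [hB, ← Finset.sum_sub_distrib]
  apply Finset.sum_congr rfl
  intro a _
  rw [hval a, sub_smul]

private theorem nsb_key {G : Type*} [AddCommGroup G] [DecidableEq G] (m M : ℕ) (A B : Finset G)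
    (hBA : B ⊆ A) (e : G → ℕ) (f : G →₀ ℕ) (hf : f ∈ Dig M A)
    (hmin : ∀ f' ∈ Dig M A, sig f' = sig f →
      (∑ a ∈ A, (f a : ℤ) * (2 * (m : ℤ) + 1) ^ (e a)) ≤
        ∑ a ∈ A, (f' a : ℤ) * (2 * (m : ℤ) + 1) ^ (e a))
    (c : G → ℤ) (hc : ∀ b ∈ B, |c b| ≤ m) (h0 : (∑ b ∈ B, c b • b) = 0)
    (h1 : ∀ b ∈ B, 0 < c b → m ≤ f b) (h2 : ∀ b ∈ B, ¬ 0 < c b → f b + m < M) :
    ¬ 0 < ∑ b ∈ B, c b * (2 * (m : ℤ) + 1) ^ (e b) := by
  intro hs
  rw [nsb_mem_Dig] at hf
  obtain ⟨hfs, hfM⟩ := hf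
  let u : G → ℕ := fun a => if a ∈ B then ((f a : ℤ) - c a).toNat else f a
  have hu0 : ∀ a, u a ≠ 0 → a ∈ A := by
    intro a ha
    by_cases hb : a ∈ B
    · exact hBA hb
    · have : f a ≠ 0 := by
        simpa [u, hb] using ha
      exact hfs (Finsupp.mem_support_iff.2 this)
  have hpos : ∀ b ∈ B, 0 ≤ (f b : ℤ) - c b ∧ (f b : ℤ) - c b < M := by
    intro b hb
    have hcb := abs_le.1 (hc b hb)
    by_cases hpb : 0 < c b
    · have h3 : (m : ℤ) ≤ f b := by exact_mod_cast h1 b hb hpb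
      have h4 : (f b : ℤ) < M := by exact_mod_cast hfM b (hBA hb)
      constructor
      · linarith [hcb.2]
      · linarith
    · have h3 : (f b : ℤ) + m < M := by exact_mod_cast h2 b hb hpb
      have h4 : (0 : ℤ) ≤ f b := Int.natCast_nonneg _
      constructor
      · linarith
      · linarith [hcb.1]
  have huB : ∀ b ∈ B, (u b : ℤ) = (f b : ℤ) - c b := by
    intro b hb
    have : u b = ((f b : ℤ) - c b).toNat := by simp [u, hb]
    rw [this, Int.toNat_of_nonneg (hpos b hb).1]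
  have huN : ∀ b, b ∉ B → u b = f b := by
    intro b hb
    simp [u, hb]
  have hval : ∀ a, (u a : ℤ) = (f a : ℤ) - (if a ∈ B then c a else 0) := by
    intro a
    by_cases hb : a ∈ B
    · rw [huB a hb, if_pos hb]
    · rw [huN a hb, if_neg hb, sub_zero]
  let f' : G →₀ ℕ := Finsupp.onFinset A u hu0
  have hf'v : ∀ a, f' a = u a := fun a => rfl
  have hf' : f' ∈ Dig M A := by
    rw [nsb_mem_Dig]
    refine ⟨Finsupp.support_onFinset_subset, ?_⟩
    intro a ha
    rw [hf'v]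
    by_cases hb : a ∈ B
    · have := (hpos a hb).2
      rw [← huB a hb] at this
      exact_mod_cast this
    · rw [huN a hb]
      exact hfM a ha
  have hval' : ∀ a, (f' a : ℤ) = (f a : ℤ) - (if a ∈ B then c a else 0) := hval
  have hsig : sig f' = sig f := by
    rw [nsb_sig_eq (A := A) (nsb_mem_Dig.1 hf').1, nsb_sig_eq hfs]
    have := nsb_split A B hBA (fun a => f a) (fun a => f' a) c hval' (fun a : G => a)
    rw [h0, sub_zero] at this
    simpa only [natCast_zsmul] using this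
  have hle := hmin f' hf' hsig
  have hW := nsb_split A B hBA (fun a => f a) (fun a => f' a) c hval' (fun a => (2 * (m : ℤ) + 1) ^ (e a))
  simp only [smul_eq_mul] at hW
  rw [hW] at hle
  linarith

theorem exists_reps {G : Type*} [AddCommGroup G] [DecidableEq G] (m M : ℕ) (A : Finset G) :
    ∃ F : Finset (G →₀ ℕ), F ⊆ Dig M A ∧ F.card = ((Dig M A).image sig).card ∧
      ∀ B ⊆ A, Shat m M F B → MIndep m B := by
  obtain ⟨e, he⟩ : ∃ e : G → ℕ, Set.InjOn e (A : Set G) := by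
    refine ⟨fun a => if h : a ∈ A then (A.equivFin ⟨a, h⟩ : ℕ) else 0, ?_⟩
    intro a ha b hb hab
    have ha' : a ∈ A := ha
    have hb' : b ∈ A := hb
    simp only [ha', hb', dif_pos] at hab
    have := A.equivFin.injective (Fin.ext hab)
    exact congrArg Subtype.val this
  have hmin : ∀ g ∈ (Dig M A).image sig, ∃ f ∈ Dig M A, sig f = g ∧
      ∀ f' ∈ Dig M A, sig f' = g → (∑ a ∈ A, (f a : ℤ) * (2 * (m : ℤ) + 1) ^ (e a)) ≤
        ∑ a ∈ A, (f' a : ℤ) * (2 * (m : ℤ) + 1) ^ (e a) := by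
    intro g hg
    rw [mem_image] at hg
    obtain ⟨f1, hf1, hf1g⟩ := hg
    have hne : ((Dig M A).filter (fun f => sig f = g)).Nonempty :=
      ⟨f1, mem_filter.2 ⟨hf1, hf1g⟩⟩
    obtain ⟨f, hf, hfm⟩ := Finset.exists_min_image _
      (fun f : G →₀ ℕ => ∑ a ∈ A, (f a : ℤ) * (2 * (m : ℤ) + 1) ^ (e a)) hne
    rw [mem_filter] at hf
    exact ⟨f, hf.1, hf.2, fun f' hf' hf'g => hfm f' (mem_filter.2 ⟨hf', hf'g⟩)⟩
  choose! φ hφ1 hφ2 hφ3 using hmin
  refine ⟨((Dig M A).image sig).image φ, ?_, ?_, ?_⟩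
  · intro f hf
    rw [mem_image] at hf
    obtain ⟨g, hg, rfl⟩ := hf
    exact hφ1 g hg
  · apply Finset.card_image_of_injOn
    intro g hg g' hg' hgg
    have h1 := hφ2 g hg
    have h2 := hφ2 g' hg'
    rw [← h1, ← h2, hgg]
  · intro B hBA hSh c hc h0
    have key : ∀ c : G → ℤ, (∀ b ∈ B, |c b| ≤ m) → (∑ b ∈ B, c b • b) = 0 →
        ¬ 0 < ∑ b ∈ B, c b * (2 * (m : ℤ) + 1) ^ (e b) := by
      intro c hc h0
      obtain ⟨f, hfF, hf1, hf2⟩ := hSh (B.filter (fun b => 0 < c b)) (filter_subset _ _)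
      rw [mem_image] at hfF
      obtain ⟨g, hg, rfl⟩ := hfF
      refine nsb_key m M A B hBA e (φ g) (hφ1 g hg) ?_ c hc h0 ?_ ?_
      · intro f' hf' hs
        rw [hφ2 g hg] at hs
        exact hφ3 g hg f' hf' hs
      · intro b hb hp
        exact hf1 b (mem_filter.2 ⟨hb, hp⟩)
      · intro b hb hp
        exact hf2 b hb (fun h => hp (mem_filter.1 h).2)
    have hp := key c hc h0
    have hn := key (fun b => - c b) (by intro b hb; rw [abs_neg]; exact hc b hb)
      (by simp only [neg_smul, Finset.sum_neg_distrib, h0, neg_zero])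
    simp only [neg_mul, Finset.sum_neg_distrib] at hn
    apply nsb_ne m e B (he.mono (by exact_mod_cast hBA)) c hc
    linarith [not_lt.1 hp, not_lt.1 hn]

end Pool.Agent.NU
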