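import Pool.Agent.NU.NSa
import Pool.Agent.NU.NSb
import Pool.Agent.NU.NLa
import Pool.Agent.NU.NEe

/-!
# NSc: from nearly full entropy to a large m-independent subset
-/

open Finset

namespace Pool.Agent.NU

theorem exists_large_mindep {G : Type*} [AddCommGroup G] [DecidableEq G] {m M : ℕ} {η ε : ℝ}
    (hm : 1 ≤ m) (hη : 0 < η) (hM : 4 * m ≤ η * M) (hε : ε * M ≤ η / 4) (A : Finset G)
    (h : A.card * (Real.log M - (M - 1) * ε) ≤ ent (law M A)) :
    ∃ B ⊆ A, MIndep m B ∧ (1 - η) * A.card ≤ B.card := by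
  classical
  by_contra hcon
  push Not at hcon
  have hempty : MIndep m (∅ : Finset G) := by
    intro c _ _ b hb
    simp at hb
  have hlt := hcon ∅ (Finset.empty_subset A) hempty
  simp only [Finset.card_empty, Nat.cast_zero] at hlt
  have hn0 : (0 : ℝ) ≤ A.card := Nat.cast_nonneg _
  have hη1 : η < 1 := by
    by_contra h1
    push Not at h1
    have : (1 - η) * (A.card : ℝ) ≤ 0 := mul_nonpos_of_nonpos_of_nonneg (by linarith) hn0
    linarith
  have hnpos : (0 : ℝ) < A.card := by
    rcases hn0.lt_or_eq with h1 | h1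
    · exact h1
    · rw [← h1] at hlt
      simp at hlt
  have hm' : (1 : ℝ) ≤ m := by exact_mod_cast hm
  have hMpos : (0 : ℝ) < M := by
    by_contra h1
    push Not at h1
    have : η * (M : ℝ) ≤ 0 := mul_nonpos_of_nonneg_of_nonpos hη.le h1
    linarith
  have hM1 : 1 ≤ M := by
    have : 0 < M := by exact_mod_cast hMpos
    omega
  have hM1' : (1 : ℝ) ≤ M := by exact_mod_cast hM1
  have h4m : 4 * (m : ℝ) ≤ M := by
    have : η * (M : ℝ) ≤ 1 * M := mul_le_mul_of_nonneg_right hη1.le hMpos.le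
    linarith
  have hmM : m ≤ M := by
    have : (m : ℝ) ≤ M := by linarith
    exact_mod_cast this
  obtain ⟨F, hFsub, hFcard, hFB⟩ := exists_reps m M A
  let 𝓢 : Finset (Finset G) := A.powerset.filter fun B => Shat m M F B
  have hF : ∀ f ∈ F, f.support ⊆ A ∧ ∀ a, f a < M := by
    intro f hf
    have h1 : f ∈ Dig M A := hFsub hf
    have h2 : f.support ⊆ A ∧ ∀ i ∈ A, f i ∈ range M := by
      have h3 : f ∈ A.finsupp fun _ => range M := by
        unfold Dig at h1
        convert h1
      exact Finset.mem_finsupp_iff.mp h3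
    refine ⟨h2.1, fun a => ?_⟩
    by_cases ha : a ∈ A
    · exact Finset.mem_range.mp (h2.2 a ha)
    · have : f a = 0 := by
        by_contra h5
        exact ha (h2.1 (Finsupp.mem_support_iff.mpr h5))
      omega
  have hcard := card_le_shatter hmM hM1 A F hF 𝓢
    (fun B hB hs => Finset.mem_filter.mpr ⟨Finset.mem_powerset.mpr hB, hs⟩)
    (fun B hB => Finset.mem_powerset.mp (Finset.mem_filter.mp hB).1)
  have hcardR : (F.card : ℝ) ≤ ∑ B ∈ 𝓢, (m : ℝ) ^ (A \ B).card * ((M : ℝ) - m) ^ B.card := by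
    have := (Nat.cast_le (α := ℝ)).mpr hcard
    refine this.trans (le_of_eq ?_)
    push_cast [Nat.cast_sub hmM]
    rfl
  have hMm : (0 : ℝ) ≤ (M : ℝ) - m := by linarith
  have hm0 : (0 : ℝ) ≤ m := by linarith
  have hbound : ∀ B ∈ 𝓢, (m : ℝ) ^ (A \ B).card * ((M : ℝ) - m) ^ B.card ≤
      (2 : ℝ) ^ (-(η * A.card)) * (((M : ℝ) - m) ^ B.card * (2 * (m : ℝ)) ^ (A.card - B.card)) := by
    intro B hB
    have hBA : B ⊆ A := Finset.mem_powerset.mp (Finset.mem_filter.mp hB).1
    have hBs : Shat m M F B := (Finset.mem_filter.mp hB).2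
    have hBi := hcon B hBA (hFB B hBA hBs)
    have hle : B.card ≤ A.card := Finset.card_le_card hBA
    have hcd : (A \ B).card = A.card - B.card := Finset.card_sdiff_of_subset hBA
    rw [hcd]
    have h2 : (2 : ℝ) ^ (-(η * A.card)) * (2 : ℝ) ^ (A.card - B.card) ≥ 1 := by
      rw [← Real.rpow_natCast 2 (A.card - B.card), ← Real.rpow_add (by norm_num)]
      apply Real.one_le_rpow (by norm_num)
      rw [Nat.cast_sub hle]
      nlinarith
    have h3 : (m : ℝ) ^ (A.card - B.card) * ((M : ℝ) - m) ^ B.card ≥ 0 := by positivity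
    calc (m : ℝ) ^ (A.card - B.card) * ((M : ℝ) - m) ^ B.card
        = 1 * ((m : ℝ) ^ (A.card - B.card) * ((M : ℝ) - m) ^ B.card) := by ring
      _ ≤ ((2 : ℝ) ^ (-(η * A.card)) * (2 : ℝ) ^ (A.card - B.card)) *
          ((m : ℝ) ^ (A.card - B.card) * ((M : ℝ) - m) ^ B.card) :=
          mul_le_mul_of_nonneg_right h2 h3
      _ = _ := by rw [mul_pow]; ring
  have hsum : (F.card : ℝ) ≤ (2 : ℝ) ^ (-(η * A.card)) * ((M : ℝ) + m) ^ A.card := by
    calc (F.card : ℝ) ≤ ∑ B ∈ 𝓢, (m : ℝ) ^ (A \ B).card * ((M : ℝ) - m) ^ B.card := hcardR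
      _ ≤ ∑ B ∈ 𝓢, (2 : ℝ) ^ (-(η * A.card)) *
          (((M : ℝ) - m) ^ B.card * (2 * (m : ℝ)) ^ (A.card - B.card)) := Finset.sum_le_sum hbound
      _ ≤ ∑ B ∈ A.powerset, (2 : ℝ) ^ (-(η * A.card)) *
          (((M : ℝ) - m) ^ B.card * (2 * (m : ℝ)) ^ (A.card - B.card)) := by
          apply Finset.sum_le_sum_of_subset_of_nonneg (Finset.filter_subset _ _)
          intro B _ _
          positivity
      _ = (2 : ℝ) ^ (-(η * A.card)) * ((M : ℝ) + m) ^ A.card := by
          rw [← Finset.mul_sum, Finset.sum_pow_mul_eq_add_pow]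
          congr 2
          ring
  have hFpos : 0 < F.card := by
    rw [hFcard]
    apply Finset.card_pos.mpr
    apply Finset.Nonempty.image
    refine ⟨0, ?_⟩
    have h3 : (0 : G →₀ ℕ) ∈ A.finsupp fun _ => range M := by
      rw [Finset.mem_finsupp_iff]
      refine ⟨by simp, fun i _ => by simp; omega⟩
    unfold Dig
    convert h3
  have hlog1 : ent (law M A) ≤ Real.log F.card := by
    rw [hFcard]
    exact ent_le_log_card (isLaw_law hM1 A) _ fun g hg => law_support A hg
  have hlog2 : Real.log F.card ≤ -(η * A.card) * Real.log 2 + A.card * Real.log ((M : ℝ) + m) := by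
    have h1 := Real.log_le_log (by exact_mod_cast hFpos) hsum
    have hMm' : (0 : ℝ) < (M : ℝ) + m := by linarith
    rw [Real.log_mul (by positivity) (by positivity), Real.log_rpow (by norm_num), Real.log_pow] at h1
    exact h1
  have hlog3 : Real.log ((M : ℝ) + m) ≤ Real.log M + η / 4 := by
    have h1 : (M : ℝ) + m = M * (1 + m / M) := by field_simp
    rw [h1, Real.log_mul hMpos.ne' (by positivity)]
    have h2 : Real.log (1 + (m : ℝ) / M) ≤ m / M := by
      have := Real.log_le_sub_one_of_pos (show (0 : ℝ) < 1 + (m : ℝ) / M by positivity)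
      linarith
    have h3 : (m : ℝ) / M ≤ η / 4 := by
      rw [div_le_div_iff₀ hMpos (by norm_num)]
      linarith
    linarith
  have hε' : ((M : ℝ) - 1) * ε ≤ η / 4 := by
    rcases le_total 0 ε with h1 | h1
    · nlinarith
    · have : ((M : ℝ) - 1) * ε ≤ 0 := mul_nonpos_of_nonneg_of_nonpos (by linarith) h1
      linarith
  have hfin : (A.card : ℝ) * (Real.log M - η / 4) ≤
      -(η * A.card) * Real.log 2 + A.card * (Real.log M + η / 4) := by
    have h1 : (A.card : ℝ) * (Real.log M - η / 4) ≤ A.card * (Real.log M - (M - 1) * ε) :=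
      mul_le_mul_of_nonneg_left (by linarith) hn0
    have h2 : (A.card : ℝ) * Real.log ((M : ℝ) + m) ≤ A.card * (Real.log M + η / 4) :=
      mul_le_mul_of_nonneg_left hlog3 hn0
    linarith
  have hl2 : Real.log 2 > 0.69 := by
    have := Real.log_two_gt_d9
    linarith
  have h9 : (A.card : ℝ) * (η * (Real.log 2 - 1 / 2)) ≤ 0 := by
    have : (A.card : ℝ) * (η * (Real.log 2 - 1 / 2)) =
      (A.card : ℝ) * (Real.log M - η / 4) - (-(η * A.card) * Real.log 2 + A.card * (Real.log M + η / 4)) := by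
      ring
    linarith
  have h10 : 0 < (A.card : ℝ) * (η * (Real.log 2 - 1 / 2)) := by
    apply mul_pos hnpos
    apply mul_pos hη
    linarith
  linarith

end Pool.Agent.NU
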