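import Pool.Agent.NU.NTf
import Pool.Agent.NU.NLb
import Pool.Agent.NU.NLc
import Pool.Agent.NU.NSc

/-!
# NMn: main theorem (assembly)

M = ⌈4m/η⌉₊, ε = η/(4M), K0 real = (M-1) log M/(δ ε) ≥ 0, K = ⌈K0⌉₊ + 1, k = 2K. V = Λ,
𝒞 = {C : Finset G | C.Nonempty ∧ ∀ v ∈ C, Abs M ε (C.erase v) v}. Closure hypothesis of infinite_colouring: A, W ⊆ Λ disjoint, every
w ∈ W lies in C ∈ 𝒞 with C ⊆ insert w A: then C.erase w ⊆ A, so Abs M ε A w (Abs.mono); card_abs_le gives |W| ≤ K0|A|, so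
|A| + |W| ≤ K|A|. The classes T i contain no member of 𝒞, so ent_ge_of_coreless applies to T i and exists_large_mindep finishes.
(The value numParts of the number of classes is part of the statement.)
-/

open Finset

namespace Pool.Agent.NU

/-- The number of parts in the main theorem. -/
noncomputable def numParts (δ η : ℝ) (m : ℕ) : ℕ :=
  2 * (⌈4 * (⌈4 * m / η⌉₊ : ℝ) ^ 2 * Real.log ⌈4 * m / η⌉₊ / (δ * η)⌉₊ + 1)

theorem main {G : Type*} [AddCommGroup G] [IsAddTorsionFree G] {δ η : ℝ} (hδ : 0 < δ) (hη : 0 < η)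
    {m : ℕ} (hm : 1 ≤ m) {Λ : Set G} (hΛ : Proportional δ Λ) :
    ∃ T : Fin (numParts δ η m) → Set G, Λ = ⋃ i, T i ∧
      ∀ i, ∀ A : Finset G, (↑A : Set G) ⊆ T i →
        ∃ B ⊆ A, MIndep m B ∧ (1 - η) * A.card ≤ B.card := by
  classical
  set M : ℕ := ⌈4 * m / η⌉₊ with hMdef
  have hm' : (1 : ℝ) ≤ m := by exact_mod_cast hm
  have hMpos : 0 < M := Nat.ceil_pos.2 (by positivity)
  have hM1 : 1 ≤ M := hMpos
  have hMr : (1 : ℝ) ≤ M := by exact_mod_cast hM1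
  have hMge : (4 * m / η : ℝ) ≤ M := Nat.le_ceil _
  have hM4 : (4 * m : ℝ) ≤ η * M := by
    rw [div_le_iff₀ hη] at hMge
    linarith
  set ε : ℝ := η / (4 * M) with hεdef
  have hM0 : (0 : ℝ) < M := by linarith
  have hε : 0 < ε := by positivity
  have hεM : ε * M ≤ η / 4 := by
    rw [hεdef]
    apply le_of_eq
    field_simp
  have hlog : 0 ≤ Real.log M := Real.log_nonneg hMr
  set K : ℕ := ⌈4 * (M : ℝ) ^ 2 * Real.log M / (δ * η)⌉₊ + 1 with hK
  let 𝒞 : Set (Finset G) := {C | C.Nonempty ∧ ∀ v ∈ C, Abs M ε (C.erase v) v}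
  have h0 : ∅ ∉ 𝒞 := fun h => Finset.not_nonempty_empty h.1
  have hcl : ∀ A W : Finset G, (↑A : Set G) ⊆ Λ → (↑W : Set G) ⊆ Λ → Disjoint A W →
      (∀ w ∈ W, ∃ C ∈ 𝒞, w ∈ C ∧ C ⊆ insert w A) → A.card + W.card ≤ K * A.card := by
    intro A W _ hW _ h
    have h1 : ∀ w ∈ W, Abs M ε A w := by
      intro w hw
      obtain ⟨C, hC, hwC, hCA⟩ := h w hw
      refine (Abs.mono hM1 ?_ (hC.2 w hwC))
      intro x hx
      rw [Finset.mem_erase] at hx
      rcases Finset.mem_insert.1 (hCA hx.2) with h2 | h2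
      · exact absurd h2 hx.1
      · exact h2
    have h2 := card_abs_le hM1 hε hδ hΛ A W hW h1
    have h3 : (W.card : ℝ) ≤ 4 * (M : ℝ) ^ 2 * Real.log M / (δ * η) * A.card := by
      have h4 : δ * ε * (W.card : ℝ) ≤ M * (A.card * Real.log M) := by
        refine h2.trans ?_
        have h5 : 0 ≤ (A.card : ℝ) * Real.log M := by positivity
        nlinarith
      rw [hεdef] at h4
      rw [div_mul_eq_mul_div, le_div_iff₀ (by positivity)]
      have h6 : δ * (η / (4 * M)) * (W.card : ℝ) * (4 * M) ≤ M * (A.card * Real.log M) * (4 * M) :=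
        mul_le_mul_of_nonneg_right h4 (by positivity)
      have h7 : δ * (η / (4 * M)) * (W.card : ℝ) * (4 * M) = (W.card : ℝ) * (δ * η) := by
        field_simp
      rw [h7] at h6
      calc (W.card : ℝ) * (δ * η) ≤ M * (A.card * Real.log M) * (4 * M) := h6
        _ = 4 * (M : ℝ) ^ 2 * Real.log M * A.card := by ring
    have h8 : (W.card : ℝ) ≤ (⌈4 * (M : ℝ) ^ 2 * Real.log M / (δ * η)⌉₊ : ℝ) * A.card :=
      h3.trans (mul_le_mul_of_nonneg_right (Nat.le_ceil _) (Nat.cast_nonneg _))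
    have h9 : W.card ≤ ⌈4 * (M : ℝ) ^ 2 * Real.log M / (δ * η)⌉₊ * A.card := by exact_mod_cast h8
    rw [hK, add_mul, one_mul]
    omega
  obtain ⟨T, hT1, hT2⟩ := infinite_colouring K Λ 𝒞 h0 hcl
  refine ⟨T, hT1, ?_⟩
  intro i A hA
  refine exists_large_mindep (M := M) (ε := ε) hm hη hM4 hεM A ?_
  refine ent_ge_of_coreless hM1 (T i) ?_ A hA
  intro C hC hCT
  by_contra hcon
  push Not at hcon
  exact hT2 i C ⟨hC, hcon⟩ hCT

end Pool.Agent.NU
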