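import Pool.Agent.NU.Def

/-!
# NSa: Sauer-Shelah lemma with margins
-/

open Finset

namespace Pool.Agent.NU

variable {ι : Type*} [DecidableEq ι]

theorem card_fibre_bound {m M : ℕ} (hmM : m ≤ M) (a : ι) (F : Finset (ι →₀ ℕ))
    (hF : ∀ f ∈ F, ∀ a, f a < M) (J : Finset (ι →₀ ℕ))
    (hJ : ∀ g, g ∈ J ↔ g ∈ F.image (Finsupp.erase a) ∧
      ((∃ f ∈ F, Finsupp.erase a f = g ∧ m ≤ f a) ∧
        ∃ f ∈ F, Finsupp.erase a f = g ∧ f a + m < M)) :
    F.card ≤ m * (F.image (Finsupp.erase a)).card + (M - m) * J.card := by
  have hsub : J ⊆ F.image (Finsupp.erase a) := fun g hg => ((hJ g).mp hg).1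
  have hinj : ∀ g, Set.InjOn (fun f : ι →₀ ℕ => f a)
      (F.filter fun f => Finsupp.erase a f = g : Finset (ι →₀ ℕ)) := by
    intro g f hf f' hf' hff
    rw [mem_coe, mem_filter] at hf hf'
    rw [← Finsupp.erase_add_single a f, ← Finsupp.erase_add_single a f', hf.2, hf'.2]
    simp only at hff
    rw [hff]
  have hcard : ∀ g ∈ F.image (Finsupp.erase a),
      (F.filter fun f => Finsupp.erase a f = g).card ≤ m + if g ∈ J then M - m else 0 := by
    intro g hg
    by_cases hgJ : g ∈ J
    · rw [if_pos hgJ, Nat.add_sub_cancel' hmM]
      rw [← card_image_of_injOn (hinj g)]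
      calc _ ≤ (range M).card := by
            apply card_le_card
            intro x hx
            rw [mem_image] at hx
            obtain ⟨f, hf, rfl⟩ := hx
            rw [mem_range]
            exact hF f (mem_filter.mp hf).1 a
        _ = M := card_range M
    · rw [if_neg hgJ, add_zero]
      rw [hJ] at hgJ
      have hor : (∀ f ∈ F, Finsupp.erase a f = g → f a < m) ∨
          (∀ f ∈ F, Finsupp.erase a f = g → M - m ≤ f a) := by
        by_contra hcon
        push Not at hcon
        obtain ⟨⟨f, hf, hfg, hfm⟩, f', hf', hfg', hfm'⟩ := hcon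
        exact hgJ ⟨hg, ⟨f, hf, hfg, hfm⟩, f', hf', hfg', by omega⟩
      rw [← card_image_of_injOn (hinj g)]
      rcases hor with hor | hor
      · calc _ ≤ (range m).card := by
              apply card_le_card
              intro x hx
              rw [mem_image] at hx
              obtain ⟨f, hf, rfl⟩ := hx
              rw [mem_range]
              exact hor f (mem_filter.mp hf).1 (mem_filter.mp hf).2
          _ = m := card_range m
      · calc _ ≤ (Ico (M - m) M).card := by
              apply card_le_card
              intro x hx
              rw [mem_image] at hx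
              obtain ⟨f, hf, rfl⟩ := hx
              rw [mem_Ico]
              exact ⟨hor f (mem_filter.mp hf).1 (mem_filter.mp hf).2,
                hF f (mem_filter.mp hf).1 a⟩
          _ = m := by rw [Nat.card_Ico]; omega
  calc F.card = ∑ g ∈ F.image (Finsupp.erase a),
        (F.filter fun f => Finsupp.erase a f = g).card :=
        card_eq_sum_card_fiberwise (fun f hf => mem_image_of_mem _ hf)
    _ ≤ ∑ g ∈ F.image (Finsupp.erase a), (m + if g ∈ J then M - m else 0) := sum_le_sum hcard
    _ = m * (F.image (Finsupp.erase a)).card + (M - m) * J.card := by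
        rw [sum_add_distrib, sum_const, smul_eq_mul, sum_ite_mem, inter_eq_right.mpr hsub,
          sum_const, smul_eq_mul]
        ring

theorem card_le_shatter {m M : ℕ} (hmM : m ≤ M) (hM : 1 ≤ M) (A : Finset ι)
    (F : Finset (ι →₀ ℕ)) (hF : ∀ f ∈ F, f.support ⊆ A ∧ ∀ a, f a < M) (𝓢 : Finset (Finset ι))
    (h𝓢 : ∀ B ⊆ A, Shat m M F B → B ∈ 𝓢) (h𝓢' : ∀ B ∈ 𝓢, B ⊆ A) :
    F.card ≤ ∑ B ∈ 𝓢, m ^ (A \ B).card * (M - m) ^ B.card := by
  classical
  induction A using Finset.induction_on generalizing F 𝓢 with
  | empty =>
    rcases F.eq_empty_or_nonempty with hFe | ⟨f0, hf0⟩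
    · rw [hFe]
      exact Nat.zero_le _
    · have h1 : F ⊆ {0} := by
        intro f hf
        rw [mem_singleton]
        have h2 := (hF f hf).1
        rw [subset_empty, Finsupp.support_eq_empty] at h2
        exact h2
      have h3 : (∅ : Finset ι) ∈ 𝓢 := by
        apply h𝓢 ∅ (Subset.refl _)
        intro S hS
        rw [subset_empty] at hS
        subst hS
        exact ⟨f0, hf0, fun b hb => absurd hb (notMem_empty b),
          fun b hb => absurd hb (notMem_empty b)⟩
      calc F.card ≤ 1 := (card_le_card h1).trans (by rw [card_singleton])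
        _ = m ^ ((∅ : Finset ι) \ ∅).card * (M - m) ^ (∅ : Finset ι).card := by simp
        _ ≤ _ := single_le_sum (f := fun B : Finset ι =>
            m ^ ((∅ : Finset ι) \ B).card * (M - m) ^ B.card) (fun _ _ => Nat.zero_le _) h3
  | insert a A' ha ih =>
    set J := (F.image (Finsupp.erase a)).filter (fun g =>
      (∃ f ∈ F, Finsupp.erase a f = g ∧ m ≤ f a) ∧
        ∃ f ∈ F, Finsupp.erase a f = g ∧ f a + m < M) with hJ
    have h1 := card_fibre_bound hmM a F (fun f hf => (hF f hf).2) J
      (fun g => by rw [hJ, mem_filter])
    have hG0 : ∀ g ∈ F.image (Finsupp.erase a), g.support ⊆ A' ∧ ∀ b, g b < M := by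
      intro g hg
      rw [mem_image] at hg
      obtain ⟨f, hf, rfl⟩ := hg
      refine ⟨?_, ?_⟩
      · intro b hb
        rw [Finsupp.support_erase, mem_erase] at hb
        have h2 := (hF f hf).1 hb.2
        rw [mem_insert] at h2
        exact h2.resolve_left hb.1
      · intro b
        by_cases hb : b = a
        · rw [hb, Finsupp.erase_same]
          exact hM
        · rw [Finsupp.erase_ne hb]
          exact (hF f hf).2 b
    have h2 := ih (F.image (Finsupp.erase a)) hG0 (𝓢.filter fun B => a ∉ B)
      (by
        intro B hB hsh
        rw [mem_filter]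
        refine ⟨h𝓢 B (hB.trans (subset_insert _ _)) ?_, fun h => ha (hB h)⟩
        intro S hS
        obtain ⟨g, hg, hg1, hg2⟩ := hsh S hS
        rw [mem_image] at hg
        obtain ⟨f, hf, rfl⟩ := hg
        have hne : ∀ b ∈ B, b ≠ a := fun b hb h => ha (h ▸ hB hb)
        refine ⟨f, hf, ?_, ?_⟩
        · intro b hb
          have h3 := hg1 b hb
          rwa [Finsupp.erase_ne (hne b (hS hb))] at h3
        · intro b hb hbS
          have h3 := hg2 b hb hbS
          rwa [Finsupp.erase_ne (hne b hb)] at h3)
      (by
        intro B hB
        rw [mem_filter] at hB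
        intro b hb
        have h3 := h𝓢' B hB.1 hb
        rw [mem_insert] at h3
        exact h3.resolve_left (fun h => hB.2 (h ▸ hb)))
    have h3 := ih J (fun g hg => hG0 g (mem_filter.mp hg).1)
      (A'.powerset.filter fun B => insert a B ∈ 𝓢)
      (by
        intro B hB hsh
        rw [mem_filter, mem_powerset]
        refine ⟨hB, h𝓢 _ (insert_subset_insert a hB) ?_⟩
        intro S hS
        have hS' : S.erase a ⊆ B := by
          intro b hb
          rw [mem_erase] at hb
          have h4 := hS hb.2
          rw [mem_insert] at h4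
          exact h4.resolve_left hb.1
        obtain ⟨g, hg, hg1, hg2⟩ := hsh _ hS'
        obtain ⟨_, ⟨f1, hf1, hfg1, hf1m⟩, f2, hf2, hfg2, hf2m⟩ := mem_filter.mp hg
        by_cases haS : a ∈ S
        · refine ⟨f1, hf1, ?_, ?_⟩
          · intro b hb
            by_cases hba : b = a
            · rw [hba]
              exact hf1m
            · have h5 := hg1 b (mem_erase.mpr ⟨hba, hb⟩)
              rwa [← hfg1, Finsupp.erase_ne hba] at h5
          · intro b hb hbS
            have hba : b ≠ a := fun h => hbS (h ▸ haS)
            have h5 := hg2 b ((mem_insert.mp hb).resolve_left hba)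
              (fun h => hbS (mem_of_mem_erase h))
            rwa [← hfg1, Finsupp.erase_ne hba] at h5
        · refine ⟨f2, hf2, ?_, ?_⟩
          · intro b hb
            have hba : b ≠ a := fun h => haS (h ▸ hb)
            have h5 := hg1 b (mem_erase.mpr ⟨hba, hb⟩)
            rwa [← hfg2, Finsupp.erase_ne hba] at h5
          · intro b hb hbS
            by_cases hba : b = a
            · rw [hba]
              exact hf2m
            · have h5 := hg2 b ((mem_insert.mp hb).resolve_left hba)
                (fun h => hbS (mem_of_mem_erase h))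
              rwa [← hfg2, Finsupp.erase_ne hba] at h5)
      (fun B hB => mem_powerset.mp (mem_filter.mp hB).1)
    have h4 : ∑ B ∈ 𝓢, m ^ (insert a A' \ B).card * (M - m) ^ B.card =
        m * (∑ B ∈ 𝓢.filter (fun B => a ∉ B), m ^ (A' \ B).card * (M - m) ^ B.card) +
        (M - m) * (∑ B ∈ A'.powerset.filter (fun B => insert a B ∈ 𝓢),
          m ^ (A' \ B).card * (M - m) ^ B.card) := by
      rw [← sum_filter_add_sum_filter_not 𝓢 (fun B => a ∉ B)]
      congr 1
      · rw [mul_sum]
        apply sum_congr rfl
        intro B hB
        rw [mem_filter] at hB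
        rw [insert_sdiff_of_notMem _ hB.2, card_insert_of_notMem, pow_succ]
        · ring
        · intro h
          exact ha (mem_sdiff.mp h).1
      · rw [mul_sum]
        symm
        refine sum_nbij (fun B => insert a B) ?_ ?_ ?_ ?_
        · intro B hB
          rw [mem_filter, mem_powerset] at hB
          rw [mem_filter]
          exact ⟨hB.2, fun h => h (mem_insert_self a B)⟩
        · intro B hB B' hB' hBB
          rw [mem_coe, mem_filter, mem_powerset] at hB hB'
          have e1 : (insert a B).erase a = (insert a B').erase a := by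
            simp only at hBB
            rw [hBB]
          rwa [erase_insert (fun h => ha (hB.1 h)), erase_insert (fun h => ha (hB'.1 h))] at e1
        · intro B hB
          rw [mem_coe, mem_filter, not_not] at hB
          refine ⟨B.erase a, ?_, insert_erase hB.2⟩
          rw [mem_coe, mem_filter, mem_powerset, insert_erase hB.2]
          refine ⟨?_, hB.1⟩
          intro b hb
          rw [mem_erase] at hb
          have h5 := h𝓢' B hB.1 hb.2
          rw [mem_insert] at h5
          exact h5.resolve_left hb.1
        · intro B hB
          rw [mem_filter, mem_powerset] at hB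
          have haB : a ∉ B := fun h => ha (hB.1 h)
          have e2 : insert a A' \ insert a B = A' \ B := by
            ext b
            rw [mem_sdiff, mem_sdiff, mem_insert, mem_insert]
            constructor
            · rintro ⟨h5, h6⟩
              push Not at h6
              exact ⟨h5.resolve_left h6.1, h6.2⟩
            · rintro ⟨h5, h6⟩
              refine ⟨Or.inr h5, ?_⟩
              rintro (h7 | h7)
              · exact ha (h7 ▸ h5)
              · exact h6 h7
          rw [e2, card_insert_of_notMem haB, pow_succ]
          ring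
    rw [h4]
    exact h1.trans (Nat.add_le_add (Nat.mul_le_mul_left _ h2) (Nat.mul_le_mul_left _ h3))

end Pool.Agent.NU
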