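import Pool.Agent.NU.Def

/-!
# NTa: boundary of boundary, cones (easy)

bd_bd: sum over pairs (v,w), v in Ω\F, w in Ω\insert v F, of z(insert w (insert v F)); the involution (v,w) ↦ (w,v)
has no fixed point, so the sum is 0 in ZMod 2 (Finset.sum_involution on the sigma type, CharTwo.add_self_eq_zero).
bd_isChain: if bd Ω z F ≠ 0 then some v ∈ Ω\F has z (insert v F) ≠ 0; subsets of faces are faces.
exact_of_cone: v ∈ Ω lies in no member of 𝒟. Given a cycle z put y F = if v ∈ F then z (F.erase v) else 0.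
Face (F.erase v) implies Face F when v ∈ F (a forbidden D ⊆ F has v ∉ D, so D ⊆ F.erase v).
bd y F for v ∉ F: only the term v survives: z F. For v ∈ F put G = F.erase v: bd y F = ∑_{w ∈ Ω\F} z (insert w G)
(use (insert w F).erase v = insert w G as w ≠ v), and 0 = bd z G = z (insert v G) + ∑_{w ∈ Ω\F} z (insert w G).
-/

open Finset

namespace Pool.Agent.NU

variable {α : Type*} [DecidableEq α]

theorem bd_bd (Ω : Finset α) (z : Finset α → ZMod 2) (F : Finset α) : bd Ω (bd Ω z) F = 0 := by
  unfold bd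
  rw [Finset.sum_sigma']
  refine Finset.sum_involution (fun p _ => ⟨p.2, p.1⟩) ?_ ?_ ?_ ?_
  · rintro ⟨v, w⟩ _
    dsimp only
    rw [Finset.insert_comm w v F]
    exact CharTwo.add_self_eq_zero _
  · rintro ⟨v, w⟩ h _ h3
    simp only [mem_sigma, mem_sdiff, mem_insert, not_or] at h
    have h4 : w = v := congrArg Sigma.fst h3
    exact h.2.2.1 h4
  · rintro ⟨v, w⟩ h
    simp only [mem_sigma, mem_sdiff, mem_insert, not_or] at h ⊢
    exact ⟨⟨h.2.1, h.2.2.2⟩, h.1.1, fun e => h.2.2.1 e.symm, h.1.2⟩
  · rintro ⟨v, w⟩ _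
    rfl

theorem face_mono {Ω : Finset α} {𝒟 : Finset (Finset α)} {F E : Finset α} (h : Face Ω 𝒟 F)
    (hEF : E ⊆ F) : Face Ω 𝒟 E :=
  ⟨hEF.trans h.1, fun D hD hDE => h.2 D hD (hDE.trans hEF)⟩

theorem bd_isChain {Ω : Finset α} {𝒟 : Finset (Finset α)} {n : ℕ} {z : Finset α → ZMod 2}
    (hz : IsChain Ω 𝒟 (n + 1) z) : IsChain Ω 𝒟 n (bd Ω z) := by
  intro F hF
  unfold bd at hF
  obtain ⟨v, hv, hne⟩ := Finset.exists_ne_zero_of_sum_ne_zero hF
  obtain ⟨h1, h2⟩ := hz _ hne
  rw [mem_sdiff] at hv
  refine ⟨face_mono h1 (subset_insert v F), ?_⟩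
  rw [card_insert_of_notMem hv.2] at h2
  omega

theorem exact_of_cone {Ω : Finset α} {𝒟 : Finset (Finset α)} {v : α} (hv : v ∈ Ω)
    (h1 : ∀ D ∈ 𝒟, v ∉ D) (n : ℕ) : Exact Ω 𝒟 n := by
  intro z hz hb
  refine ⟨fun F => if v ∈ F then z (F.erase v) else 0, ?_, ?_⟩
  · intro F hF
    by_cases hvF : v ∈ F
    · simp only [hvF, if_true] at hF
      obtain ⟨⟨h2, h3⟩, h4⟩ := hz _ hF
      refine ⟨⟨?_, ?_⟩, ?_⟩
      · intro x hx
        by_cases hxv : x = v
        · rw [hxv]; exact hv
        · exact h2 (mem_erase.mpr ⟨hxv, hx⟩)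
      · intro D hD hDF
        apply h3 D hD
        intro x hx
        refine mem_erase.mpr ⟨?_, hDF hx⟩
        rintro rfl
        exact h1 D hD hx
      · rw [card_erase_of_mem hvF] at h4
        have := card_pos.mpr ⟨v, hvF⟩
        omega
    · simp only [hvF, if_false, ne_eq, not_true_eq_false] at hF
  · intro F
    by_cases hvF : v ∈ F
    · have hG := hb (F.erase v)
      unfold bd at hG ⊢
      have e1 : Ω \ F.erase v = insert v (Ω \ F) := by
        ext x
        simp only [mem_sdiff, mem_erase, mem_insert]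
        constructor
        · rintro ⟨hx, hx2⟩
          by_cases hxv : x = v
          · exact Or.inl hxv
          · exact Or.inr ⟨hx, fun h => hx2 ⟨hxv, h⟩⟩
        · rintro (rfl | ⟨hx, hx2⟩)
          · exact ⟨hv, fun h => h.1 rfl⟩
          · exact ⟨hx, fun h => hx2 h.2⟩
      have e2 : v ∉ Ω \ F := by
        rw [mem_sdiff]
        exact fun h => h.2 hvF
      rw [e1, sum_insert e2, insert_erase hvF] at hG
      have e3 : ∀ w ∈ Ω \ F, (if v ∈ insert w F then z ((insert w F).erase v) else 0)
          = z (insert w (F.erase v)) := by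
        intro w hw
        rw [mem_sdiff] at hw
        have hwv : w ≠ v := by
          rintro rfl
          exact hw.2 hvF
        rw [if_pos (mem_insert_of_mem hvF), erase_insert_of_ne hwv]
      rw [sum_congr rfl e3]
      have h5 := eq_neg_of_add_eq_zero_right hG
      rw [h5]
      exact CharTwo.neg_eq _
    · unfold bd
      have hvm : v ∈ Ω \ F := mem_sdiff.mpr ⟨hv, hvF⟩
      rw [Finset.sum_eq_single v]
      · show (if v ∈ insert v F then z ((insert v F).erase v) else 0) = z F
        rw [if_pos (mem_insert_self v F), erase_insert hvF]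
      · intro w _ hw
        show (if v ∈ insert w F then z ((insert w F).erase v) else 0) = 0
        rw [if_neg]
        rw [mem_insert]
        rintro (h | h)
        · exact hw h.symm
        · exact hvF h
      · intro h
        exact absurd hvm h

end Pool.Agent.NU
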