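import Pool.Agent.NU.NTa

/-!
# NTb: explosion of one forbidden set

Write 𝒟' = 𝒟.erase D. Let z be an n-cycle for 𝒟. It is an n-cycle for 𝒟', so z = bd Ω y with y an (n+1)-chain for 𝒟'.
If n + 1 < D.card no face of card n+1 contains D and y is a chain for 𝒟 (a face for 𝒟' not containing D is a face
for 𝒟). Otherwise let m = n + 1 - D.card and w G = if Disjoint G D then y (G ∪ D) else 0. Then
* w is an m-chain for (Ω \ D, 𝒟'' = 𝒟'.image (· \ D)): G ∪ D face gives G ⊆ Ω\D (G disjoint from D), and E \ D ⊆ G
  would give E ⊆ G ∪ D;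
* bd (Ω\D) w G = 0: if G meets D all terms are 0; otherwise it equals bd Ω y (G ∪ D) = z (G ∪ D) = 0 because G ∪ D ⊇ D is
  not a face for 𝒟 (reindex: (Ω\D)\G = Ω\(G ∪ D), insert v G ∪ D = insert v (G ∪ D)).
By h2 there is an (m+1)-chain u for (Ω\D,𝒟'') with bd (Ω\D) u = w. Put U F = if D ⊆ F then u (F \ D) else 0; it is a
chain with n+2 elements for 𝒟' on Ω: F = (F\D) ∪ D; if E ∈ 𝒟' and E ⊆ F then E\D ⊆ F\D, impossible
(E \ D ∈ 𝒟''). Put y' = y - bd Ω U (or +). Then bd y' = bd y - bd bd U = z, y' is an (n+1)-chain for 𝒟', and for F ⊇ D,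
F = G ∪ D, G = F \ D: bd Ω U F = ∑_{v ∈ Ω\F} u ((insert v F) \ D) = bd (Ω\D) u G = w G = y F, so y' F = 0. Hence y' is a
chain for 𝒟. (If F ⊇ D but F ⊄ Ω then y F = 0 and bd U F = 0.) The hypothesis hmin is only needed to know that D itself is
allowed; in fact it is not used in this argument, drop or keep it.
-/

open Finset

namespace Pool.Agent.NU

variable {α : Type*} [DecidableEq α]

theorem exact_explode {Ω : Finset α} {𝒟 : Finset (Finset α)} {D : Finset α} (hD : D ∈ 𝒟)
    (hD1 : 1 ≤ D.card) (hDΩ : D ⊆ Ω) {n : ℕ}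
    (h1 : Exact Ω (𝒟.erase D) n)
    (h2 : ∀ m, n + 1 = m + D.card → Exact (Ω \ D) ((𝒟.erase D).image (· \ D)) m) :
    Exact Ω 𝒟 n := by
  intro z hz hb
  have hz' : IsChain Ω (𝒟.erase D) n z := by
    intro F hF
    obtain ⟨⟨a, b⟩, c⟩ := hz F hF
    exact ⟨⟨a, fun E hE => b E (mem_of_mem_erase hE)⟩, c⟩
  obtain ⟨y, hy, hby⟩ := h1 z hz' hb
  have hface : ∀ F, Face Ω (𝒟.erase D) F → ¬ D ⊆ F → Face Ω 𝒟 F := by
    intro F hF hDF
    refine ⟨hF.1, fun E hE => ?_⟩
    by_cases hED : E = D
    · rw [hED]; exact hDF
    · exact hF.2 E (mem_erase.mpr ⟨hED, hE⟩)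
  by_cases hn : n + 1 < D.card
  · refine ⟨y, ?_, hby⟩
    intro F hF
    obtain ⟨a, c⟩ := hy F hF
    refine ⟨hface F a ?_, c⟩
    intro hDF
    have := card_le_card hDF
    omega
  · obtain ⟨m, hm⟩ : ∃ m, n + 1 = m + D.card := ⟨n + 1 - D.card, by omega⟩
    have hex := h2 m hm
    let w : Finset α → ZMod 2 := fun G => if Disjoint G D then y (G ∪ D) else 0
    have hw : IsChain (Ω \ D) ((𝒟.erase D).image (· \ D)) m w := by
      intro G hG
      have hdis : Disjoint G D := by
        by_contra h
        exact hG (if_neg h)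
      have hyG : y (G ∪ D) ≠ 0 := by
        have : w G = y (G ∪ D) := if_pos hdis
        rw [this] at hG
        exact hG
      obtain ⟨⟨a, b⟩, c⟩ := hy _ hyG
      refine ⟨⟨?_, ?_⟩, ?_⟩
      · intro x hx
        rw [mem_sdiff]
        exact ⟨a (mem_union_left _ hx), fun hxD => disjoint_left.mp hdis hx hxD⟩
      · intro E hE hEG
        rw [mem_image] at hE
        obtain ⟨E', hE', rfl⟩ := hE
        apply b E' hE'
        intro x hx
        by_cases hxD : x ∈ D
        · exact mem_union_right _ hxD
        · exact mem_union_left _ (hEG (mem_sdiff.mpr ⟨hx, hxD⟩))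
      · rw [card_union_of_disjoint hdis] at c
        omega
    have hbw : ∀ G, bd (Ω \ D) w G = 0 := by
      intro G
      by_cases hdis : Disjoint G D
      · have h3 : bd (Ω \ D) w G = bd Ω y (G ∪ D) := by
          unfold bd
          have e1 : (Ω \ D) \ G = Ω \ (G ∪ D) := by
            ext x
            simp only [mem_sdiff, mem_union]
            tauto
          rw [e1]
          refine sum_congr rfl ?_
          intro v hv
          rw [mem_sdiff, mem_union, not_or] at hv
          have hdv : Disjoint (insert v G) D := by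
            rw [disjoint_insert_left]
            exact ⟨hv.2.2, hdis⟩
          have : w (insert v G) = y (insert v G ∪ D) := if_pos hdv
          rw [this, insert_union]
        rw [h3, hby]
        by_contra hne
        obtain ⟨⟨_, b⟩, _⟩ := hz _ hne
        exact b D hD subset_union_right
      · unfold bd
        refine sum_eq_zero ?_
        intro v _
        refine if_neg ?_
        intro h
        exact hdis (disjoint_of_subset_left (subset_insert v G) h)
    obtain ⟨u, hu, hbu⟩ := hex w hw hbw
    let U : Finset α → ZMod 2 := fun F => if D ⊆ F then u (F \ D) else 0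
    have hU : IsChain Ω (𝒟.erase D) (n + 1 + 1) U := by
      intro F hF
      have hDF : D ⊆ F := by
        by_contra h
        exact hF (if_neg h)
      have huF : u (F \ D) ≠ 0 := by
        have : U F = u (F \ D) := if_pos hDF
        rw [this] at hF
        exact hF
      obtain ⟨⟨a, b⟩, c⟩ := hu _ huF
      refine ⟨⟨?_, ?_⟩, ?_⟩
      · intro x hx
        by_cases hxD : x ∈ D
        · exact hDΩ hxD
        · exact (mem_sdiff.mp (a (mem_sdiff.mpr ⟨hx, hxD⟩))).1
      · intro E hE hEF
        apply b (E \ D) (mem_image.mpr ⟨E, hE, rfl⟩)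
        exact sdiff_subset_sdiff hEF (subset_refl D)
      · rw [card_sdiff_of_subset hDF] at c
        have := card_le_card hDF
        omega
    refine ⟨fun F => y F + bd Ω U F, ?_, ?_⟩
    · intro F hF
      have hF2 : Face Ω (𝒟.erase D) F ∧ F.card = n + 1 := by
        by_cases hyF : y F = 0
        · have hbF : bd Ω U F ≠ 0 := by
            intro h
            apply hF
            change y F + bd Ω U F = 0
            rw [hyF, h, add_zero]
          exact bd_isChain hU F hbF
        · exact hy F hyF
      refine ⟨hface F hF2.1 ?_, hF2.2⟩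
      intro hDF
      apply hF
      change y F + bd Ω U F = 0
      have h4 : bd Ω U F = bd (Ω \ D) u (F \ D) := by
        unfold bd
        have e1 : (Ω \ D) \ (F \ D) = Ω \ F := by
          ext x
          simp only [mem_sdiff]
          constructor
          · rintro ⟨⟨h5, h6⟩, h7⟩
            exact ⟨h5, fun h8 => h7 ⟨h8, h6⟩⟩
          · rintro ⟨h5, h6⟩
            exact ⟨⟨h5, fun h8 => h6 (hDF h8)⟩, fun h8 => h6 h8.1⟩
        rw [e1]
        refine sum_congr rfl ?_
        intro v hv
        rw [mem_sdiff] at hv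
        have hvD : v ∉ D := fun h => hv.2 (hDF h)
        have h5 : U (insert v F) = u (insert v F \ D) :=
          if_pos (hDF.trans (subset_insert v F))
        rw [h5, insert_sdiff_of_notMem _ hvD]
      have h5 : w (F \ D) = y F := by
        have h6 : w (F \ D) = y (F \ D ∪ D) := if_pos sdiff_disjoint
        rw [h6, sdiff_union_of_subset hDF]
      rw [h4, hbu, h5]
      exact CharTwo.add_self_eq_zero _
    · intro F
      have h4 : bd Ω (fun F => y F + bd Ω U F) F = bd Ω y F + bd Ω (bd Ω U) F := by
        unfold bd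
        rw [← sum_add_distrib]
      rw [h4, hby, bd_bd, add_zero]

end Pool.Agent.NU
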