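import Pool.Agent.NU.NTa
import Pool.Agent.NU.NTb

/-!
# NTc: homological connectivity from the closure bound (main induction)

Induction on N (generalise Ω 𝒟 t n). Let 2*K*n + t < Ω.card.
Case 1: some D ∈ 𝒟 has 2 ≤ D.card.
 (a) if ¬ D ⊆ Ω, or some E ∈ 𝒟, E ≠ D, has E ⊆ D: then Face Ω 𝒟 F ↔ Face Ω (𝒟.erase D) F, so Exact Ω 𝒟 n ↔ Exact Ω (𝒟.erase D) n;
     cl only shrinks when 𝒟 shrinks; use the induction hypothesis (card of 𝒟.erase D < card of 𝒟).
 (b) otherwise exact_explode. h1: induction hypothesis for 𝒟.erase D with the same t. h2: let n + 1 = m + D.card,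
     Ω'' = Ω \ D, 𝒟'' = (𝒟.erase D).image (· \ D) (card ≤ card (𝒟.erase D); ∅ ∉ 𝒟'' because no E ⊆ D),
     t'' = t + K*D.card - D.card (K ≥ 1 because of the hypothesis at A = D and 2 ≤ |D| and ... ; if you prefer, first show
     D.card ≤ K * D.card + t from the hypothesis at A = D, so that the natural subtraction is harmless).
     For A ⊆ Ω \ D: cl Ω'' 𝒟'' A ⊆ cl Ω 𝒟 (A ∪ D) (v ∈ E\D ⊆ insert v A gives v ∈ E ⊆ insert v (A ∪ D)), hence
     |A| + |cl'' A| ≤ |A ∪ D| - |D| + |cl (A ∪ D)| ≤ K(|A|+|D|) + t - |D| = K|A| + t''.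
     Ω''.card = Ω.card - |D|, and 2K m + t'' < Ω''.card follows from 2K m + t + K|D| < Ω.card, where
     2K m + K|D| = 2K(n+1) - 2K|D| + K|D| = 2Kn + 2K - K|D| ≤ 2Kn because |D| ≥ 2. (nlinarith / zify.)
Case 2: all D ∈ 𝒟 have card ≤ 1, so (∅ ∉ 𝒟) they are singletons. The hypothesis at A = ∅ gives |cl Ω 𝒟 ∅| ≤ t < |Ω|, so some
 v ∈ Ω is not in cl Ω 𝒟 ∅, i.e. {v} ∉ 𝒟, so v lies in no member of 𝒟: exact_of_cone.
-/

open Finset

namespace Pool.Agent.NU

variable {α : Type*} [DecidableEq α]

private theorem exact_congr' {Ω : Finset α} {𝒟 𝒟' : Finset (Finset α)}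
    (h : ∀ F, Face Ω 𝒟 F ↔ Face Ω 𝒟' F) {n : ℕ} (hE : Exact Ω 𝒟' n) : Exact Ω 𝒟 n := by
  intro z hz hb
  have hz' : IsChain Ω 𝒟' n z := fun F hF => ⟨(h F).1 (hz F hF).1, (hz F hF).2⟩
  obtain ⟨y, hy, hby⟩ := hE z hz' hb
  exact ⟨y, fun F hF => ⟨(h F).2 (hy F hF).1, (hy F hF).2⟩, hby⟩

private theorem cl_mono' {Ω : Finset α} {𝒟 𝒟' : Finset (Finset α)} (h : 𝒟' ⊆ 𝒟)
    (A : Finset α) : cl Ω 𝒟' A ⊆ cl Ω 𝒟 A := by
  intro x hx
  unfold cl at hx ⊢
  rw [mem_filter] at hx ⊢
  obtain ⟨h1, D, hD, h2⟩ := hx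
  exact ⟨h1, D, h hD, h2⟩

theorem exact_of_closure (K : ℕ) : ∀ (N : ℕ) (Ω : Finset α) (𝒟 : Finset (Finset α)) (t : ℕ),
    𝒟.card ≤ N → ∅ ∉ 𝒟 → (∀ A ⊆ Ω, A.card + (cl Ω 𝒟 A).card ≤ K * A.card + t) →
    ∀ n, 2 * K * n + t < Ω.card → Exact Ω 𝒟 n := by
  intro N
  induction N with
  | zero =>
    intro Ω 𝒟 t hN h0 hA n hn
    have h𝒟 : 𝒟 = ∅ := card_eq_zero.mp (Nat.le_zero.mp hN)
    obtain ⟨v, hv⟩ : Ω.Nonempty := card_pos.mp (by omega)
    exact exact_of_cone hv (fun D hD => by rw [h𝒟] at hD; exact absurd hD (notMem_empty D)) n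
  | succ N ih =>
    intro Ω 𝒟 t hN h0 hA n hn
    by_cases hbig : ∃ D ∈ 𝒟, 2 ≤ D.card
    · obtain ⟨D, hD, hD2⟩ := hbig
      have hcard : (𝒟.erase D).card ≤ N := by
        rw [card_erase_of_mem hD]
        omega
      have h0' : ∅ ∉ 𝒟.erase D := fun h => h0 (mem_of_mem_erase h)
      have hA' : ∀ A ⊆ Ω, A.card + (cl Ω (𝒟.erase D) A).card ≤ K * A.card + t := by
        intro A hAΩ
        have h1 := card_le_card (cl_mono' (Ω := Ω) (erase_subset D 𝒟) A)
        have h2 := hA A hAΩ
        omega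
      have hex : Exact Ω (𝒟.erase D) n := ih Ω (𝒟.erase D) t hcard h0' hA' n hn
      by_cases hred : ¬ D ⊆ Ω ∨ ∃ E ∈ 𝒟, E ≠ D ∧ E ⊆ D
      · refine exact_congr' ?_ hex
        intro F
        constructor
        · intro hF
          exact ⟨hF.1, fun E hE => hF.2 E (mem_of_mem_erase hE)⟩
        · intro hF
          refine ⟨hF.1, ?_⟩
          intro E hE
          by_cases hED : E = D
          · rw [hED]
            rcases hred with h | ⟨E', hE', h1, h2⟩
            · exact fun h3 => h (h3.trans hF.1)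
            · exact fun h3 => hF.2 E' (mem_erase.mpr ⟨h1, hE'⟩) (h2.trans h3)
          · exact hF.2 E (mem_erase.mpr ⟨hED, hE⟩)
      · push Not at hred
        obtain ⟨hDΩ, hmin⟩ := hred
        refine exact_explode hD (by omega) hDΩ hex ?_
        intro m hm
        have hKD : D.card ≤ K * D.card + t := by
          have := hA D hDΩ
          omega
        refine ih (Ω \ D) ((𝒟.erase D).image (· \ D)) (t + K * D.card - D.card) ?_ ?_ ?_ m ?_
        · exact card_image_le.trans hcard
        · intro h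
          rw [mem_image] at h
          obtain ⟨E, hE, hED⟩ := h
          rw [mem_erase] at hE
          rw [sdiff_eq_empty_iff_subset] at hED
          exact hmin E hE.2 hE.1 hED
        · intro A hAΩ
          have hdis : Disjoint A D := by
            rw [disjoint_left]
            intro x hx hxD
            exact (mem_sdiff.mp (hAΩ hx)).2 hxD
          have hsub : cl (Ω \ D) ((𝒟.erase D).image (· \ D)) A ⊆ cl Ω 𝒟 (A ∪ D) := by
            intro x hx
            unfold cl at hx ⊢
            rw [mem_filter] at hx ⊢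
            obtain ⟨h1, E'', hE'', h2, h3⟩ := hx
            rw [mem_image] at hE''
            obtain ⟨E, hE, rfl⟩ := hE''
            rw [mem_sdiff, mem_sdiff] at h1
            refine ⟨?_, E, mem_of_mem_erase hE, (mem_sdiff.mp h2).1, ?_⟩
            · rw [mem_sdiff, mem_union, not_or]
              exact ⟨h1.1.1, h1.2, h1.1.2⟩
            · intro z hz
              by_cases hzD : z ∈ D
              · exact mem_insert_of_mem (mem_union_right _ hzD)
              · have := h3 (mem_sdiff.mpr ⟨hz, hzD⟩)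
                rw [mem_insert] at this
                rcases this with h4 | h4
                · rw [h4]; exact mem_insert_self _ _
                · exact mem_insert_of_mem (mem_union_left _ h4)
          have h1 := hA (A ∪ D) (union_subset (hAΩ.trans sdiff_subset) hDΩ)
          rw [card_union_of_disjoint hdis] at h1
          have h2 := card_le_card hsub
          rw [mul_add] at h1
          omega
        · rw [card_sdiff_of_subset hDΩ]
          have h1 : 2 * K * m + K * D.card ≤ 2 * K * n := by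
            have h2 : 2 * K * (n + 1) = 2 * K * m + 2 * K * D.card := by
              rw [hm]; ring
            have h3 : 2 * K * (n + 1) = 2 * K * n + 2 * K := by ring
            have h4 : 2 * K ≤ K * D.card := by nlinarith
            have h5 : 2 * K * D.card = K * D.card + K * D.card := by ring
            omega
          have h6 := card_le_card hDΩ
          omega
    · push Not at hbig
      have h1 := hA ∅ (empty_subset Ω)
      rw [card_empty, mul_zero, zero_add, zero_add] at h1
      obtain ⟨v, hv, hvc⟩ : ∃ v ∈ Ω, v ∉ cl Ω 𝒟 ∅ := by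
        by_contra h
        push Not at h
        have := card_le_card (show Ω ⊆ cl Ω 𝒟 ∅ from fun x hx => h x hx)
        omega
      refine exact_of_cone hv ?_ n
      intro D hD hvD
      apply hvc
      unfold cl
      rw [mem_filter]
      refine ⟨mem_sdiff.mpr ⟨hv, notMem_empty v⟩, D, hD, hvD, ?_⟩
      intro x hx
      have h2 := hbig D hD
      have h3 : D.card ≤ 1 := by omega
      rw [mem_insert]
      left
      exact card_le_one.mp h3 x hx v hvD

end Pool.Agent.NU
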