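import Pool.Agent.NU.NTa

/-!
# NTd: homological Hall theorem: existence of a colourful face
-/

open Finset

namespace Pool.Agent.NU

variable {α : Type*} [DecidableEq α]

theorem bd_restrict {Ω1 Ω2 : Finset α} {𝒟 : Finset (Finset α)} {k : ℕ} {z : Finset α → ZMod 2}
    (hz : IsChain Ω1 𝒟 k z) (hΩ : Ω1 ⊆ Ω2) (F : Finset α) : bd Ω2 z F = bd Ω1 z F := by
  unfold bd
  symm
  apply Finset.sum_subset
  · intro v hv
    rw [mem_sdiff] at hv ⊢
    exact ⟨hΩ hv.1, hv.2⟩
  · intro v hv hv'
    rw [mem_sdiff] at hv hv'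
    by_contra hne
    exact hv' ⟨(hz _ hne).1.1 (mem_insert_self v F), hv.2⟩

/-- sets with exactly one element over every colour of `R` -/
def colSets {β : Type*} [DecidableEq β] (Ω : Finset α) (π : α → β) (R : Finset β) :
    Finset (Finset α) :=
  Ω.powerset.filter fun G => G.card = R.card ∧ G.image π = R

omit [DecidableEq α] in
theorem mem_colSets {β : Type*} [DecidableEq β] {Ω : Finset α} {π : α → β} {R : Finset β}
    {G : Finset α} : G ∈ colSets Ω π R ↔ G ⊆ Ω ∧ G.card = R.card ∧ G.image π = R := by
  unfold colSets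
  rw [mem_filter, mem_powerset]

omit [DecidableEq α] in
theorem colSets_inj {β : Type*} [DecidableEq β] {Ω : Finset α} {π : α → β} {R : Finset β}
    {G : Finset α} (hG : G ∈ colSets Ω π R) {x y : α} (hx : x ∈ G) (hy : y ∈ G)
    (hxy : π x = π y) : x = y := by
  rw [mem_colSets] at hG
  have h : (G.image π).card = G.card := by rw [hG.2.2, hG.2.1]
  exact (Finset.card_image_iff.mp h) hx hy hxy

theorem sum_colourful {β : Type*} [DecidableEq β] (Ω : Finset α) (R : Finset β) (π : α → β)
    (hΩ : ∀ x ∈ Ω, π x ∈ R) {r0 : β} (h0 : r0 ∈ R) (z : Finset α → ZMod 2) :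
    ∑ G ∈ colSets Ω π (R.erase r0), bd Ω z G = ∑ F ∈ colSets Ω π R, z F := by
  unfold bd
  rw [Finset.sum_sigma']
  rw [← Finset.sum_filter_add_sum_filter_not _ (fun p : (_ : Finset α) × α => π p.2 = r0)]
  have h2 : ∑ p ∈ ((colSets Ω π (R.erase r0)).sigma fun G => Ω \ G).filter
      (fun p => ¬ π p.2 = r0), z (insert p.2 p.1) = 0 := by
    have key : ∀ p ∈ ((colSets Ω π (R.erase r0)).sigma fun G => Ω \ G).filter
        (fun p => ¬ π p.2 = r0), ∃ v' ∈ p.1, π v' = π p.2 := by
      intro p hp
      rw [mem_filter, mem_sigma, mem_sdiff] at hp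
      obtain ⟨⟨hG, hv⟩, hr⟩ := hp
      have h3 : π p.2 ∈ p.1.image π := by
        rw [(mem_colSets.mp hG).2.2, mem_erase]
        exact ⟨hr, hΩ _ hv.1⟩
      rw [mem_image] at h3
      exact h3
    choose f hf1 hf2 using key
    refine Finset.sum_involution
      (fun p hp => (⟨insert p.2 (p.1.erase (f p hp)), f p hp⟩ : (_ : Finset α) × α)) ?_ ?_ ?_ ?_
    · intro p hp
      have hp' := hp
      rw [mem_filter, mem_sigma, mem_sdiff] at hp'
      have e : insert (f p hp) (insert p.2 (p.1.erase (f p hp))) = insert p.2 p.1 := by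
        rw [Finset.insert_comm, Finset.insert_erase (hf1 p hp)]
      show z (insert p.2 p.1) + z (insert (f p hp) (insert p.2 (p.1.erase (f p hp)))) = 0
      rw [e]
      exact CharTwo.add_self_eq_zero _
    · intro p hp _ he
      have hp' := hp
      rw [mem_filter, mem_sigma, mem_sdiff] at hp'
      have h4 : f p hp = p.2 := congrArg (fun q : (_ : Finset α) × α => q.2) he
      exact hp'.1.2.2 (h4 ▸ hf1 p hp)
    · intro p hp
      have hp' := hp
      rw [mem_filter, mem_sigma, mem_sdiff] at hp'
      obtain ⟨⟨hG, hv⟩, hr⟩ := hp'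
      have hG' := mem_colSets.mp hG
      have hne : p.2 ≠ f p hp := fun h => hv.2 (h ▸ hf1 p hp)
      rw [mem_filter, mem_sigma, mem_sdiff]
      refine ⟨⟨?_, ?_⟩, ?_⟩
      · show insert p.2 (p.1.erase (f p hp)) ∈ colSets Ω π (R.erase r0)
        rw [mem_colSets]
        refine ⟨?_, ?_, ?_⟩
        · apply insert_subset hv.1
          exact (erase_subset _ _).trans hG'.1
        · rw [card_insert_of_notMem, card_erase_of_mem (hf1 p hp), ← hG'.2.1]
          · have : 0 < p.1.card := card_pos.mpr ⟨_, hf1 p hp⟩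
            omega
          · intro h
            exact hv.2 (mem_of_mem_erase h)
        · rw [← hG'.2.2, image_insert, ← hf2 p hp, ← image_insert, insert_erase (hf1 p hp)]
      · show f p hp ∈ Ω ∧ f p hp ∉ insert p.2 (p.1.erase (f p hp))
        refine ⟨hG'.1 (hf1 p hp), ?_⟩
        rw [mem_insert, mem_erase]
        rintro (h | h)
        · exact hne h.symm
        · exact h.1 rfl
      · show ¬ π (f p hp) = r0
        rw [hf2 p hp]
        exact hr
    · intro p hp
      have hp' := hp
      rw [mem_filter, mem_sigma, mem_sdiff] at hp'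
      obtain ⟨⟨hG, hv⟩, hr⟩ := hp'
      have hne : p.2 ≠ f p hp := fun h => hv.2 (h ▸ hf1 p hp)
      have main : ∀ (q : (_ : Finset α) × α) (hq : q ∈ ((colSets Ω π (R.erase r0)).sigma
          fun G => Ω \ G).filter (fun p => ¬ π p.2 = r0)),
          q = ⟨insert p.2 (p.1.erase (f p hp)), f p hp⟩ →
          (⟨insert q.2 (q.1.erase (f q hq)), f q hq⟩ : (_ : Finset α) × α) = p := by
        intro q hq hqe
        have hqm : q.1 ∈ colSets Ω π (R.erase r0) := by
          rw [mem_filter, mem_sigma] at hq
          exact hq.1.1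
        have h5 : p.2 ∈ q.1 := by rw [hqe]; exact mem_insert_self _ _
        have h6 : f q hq = p.2 := by
          apply colSets_inj hqm (hf1 q hq) h5
          rw [hf2 q hq, hqe]
          exact hf2 p hp
        rw [h6, hqe]
        show (⟨insert (f p hp) ((insert p.2 (p.1.erase (f p hp))).erase p.2), p.2⟩ :
          (_ : Finset α) × α) = p
        rw [erase_insert (fun h => hv.2 (mem_of_mem_erase h)), insert_erase (hf1 p hp)]
      exact main _ _ rfl
  rw [h2, add_zero]
  refine Finset.sum_nbij (fun p : (_ : Finset α) × α => insert p.2 p.1) ?_ ?_ ?_ ?_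
  · intro p hp
    rw [mem_filter, mem_sigma, mem_sdiff] at hp
    obtain ⟨⟨hG, hv⟩, hr⟩ := hp
    rw [mem_colSets] at hG ⊢
    refine ⟨insert_subset hv.1 hG.1, ?_, ?_⟩
    · rw [card_insert_of_notMem hv.2, hG.2.1, card_erase_of_mem h0]
      have : 0 < R.card := card_pos.mpr ⟨_, h0⟩
      omega
    · rw [image_insert, hG.2.2, hr, insert_erase h0]
  · intro p hp q hq hpq
    rw [mem_coe, mem_filter, mem_sigma, mem_sdiff] at hp hq
    obtain ⟨⟨hG, hv⟩, hr⟩ := hp
    obtain ⟨⟨hG2, hv2⟩, hr2⟩ := hq
    have hpq' : insert p.2 p.1 = insert q.2 q.1 := hpq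
    have e1 : p.2 = q.2 := by
      have h7 : p.2 ∈ insert q.2 q.1 := by rw [← hpq']; exact mem_insert_self _ _
      rw [mem_insert] at h7
      rcases h7 with h7 | h7
      · exact h7
      · exfalso
        have h8 : π p.2 ∈ q.1.image π := mem_image_of_mem π h7
        rw [(mem_colSets.mp hG2).2.2, hr] at h8
        exact (mem_erase.mp h8).1 rfl
    have e2 : p.1 = q.1 := by
      rw [← erase_insert hv.2, hpq', e1, erase_insert hv2.2]
    obtain ⟨p1, p2⟩ := p
    obtain ⟨q1, q2⟩ := q
    simp only at e1 e2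
    subst e1 e2
    rfl
  · intro F hF
    rw [mem_coe] at hF
    have hF' := mem_colSets.mp hF
    have h9 : r0 ∈ F.image π := by rw [hF'.2.2]; exact h0
    rw [mem_image] at h9
    obtain ⟨v, hvF, hv⟩ := h9
    refine ⟨⟨F.erase v, v⟩, ?_, ?_⟩
    · rw [mem_coe, mem_filter, mem_sigma, mem_sdiff]
      refine ⟨⟨?_, ?_⟩, hv⟩
      · show F.erase v ∈ colSets Ω π (R.erase r0)
        rw [mem_colSets]
        refine ⟨(erase_subset _ _).trans hF'.1, ?_, ?_⟩
        · rw [card_erase_of_mem hvF, card_erase_of_mem h0, hF'.2.1]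
        · ext r
          rw [mem_image, mem_erase]
          constructor
          · rintro ⟨x, hx, rfl⟩
            rw [mem_erase] at hx
            refine ⟨?_, ?_⟩
            · intro h
              exact hx.1 (colSets_inj hF hx.2 hvF (h.trans hv.symm))
            · rw [← hF'.2.2]
              exact mem_image_of_mem π hx.2
          · rintro ⟨h1, h2⟩
            rw [← hF'.2.2, mem_image] at h2
            obtain ⟨x, hx, rfl⟩ := h2
            refine ⟨x, ?_, rfl⟩
            rw [mem_erase]
            refine ⟨?_, hx⟩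
            rintro rfl
            exact h1 hv
      · show v ∈ Ω ∧ v ∉ F.erase v
        exact ⟨hF'.1 hvF, notMem_erase v F⟩
    · show insert v (F.erase v) = F
      exact insert_erase hvF
  · intro p hp
    rfl

theorem exists_chains {β : Type*} [DecidableEq β] (Ω : Finset α) (𝒟 : Finset (Finset α))
    (h0 : ∅ ∉ 𝒟) (V : Finset β) (π : α → β)
    (h : ∀ R ⊆ V, ∀ n, n + 1 = R.card → Exact (Ω.filter fun x => π x ∈ R) 𝒟 n) (n : ℕ) :
    ∃ c : Finset β → Finset α → ZMod 2, ∀ R ⊆ V, R.card ≤ n →
      IsChain (Ω.filter fun x => π x ∈ R) 𝒟 R.card (c R) ∧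
      (R = ∅ → ∀ F, c R F = if F = ∅ then 1 else 0) ∧
      (R.Nonempty → ∀ F, bd (Ω.filter fun x => π x ∈ R) (c R) F
        = ∑ r ∈ R, c (R.erase r) F) := by
  induction n with
  | zero =>
    refine ⟨fun _ F => if F = ∅ then 1 else 0, ?_⟩
    intro R _ hR
    have hR0 : R = ∅ := card_eq_zero.mp (Nat.le_zero.mp hR)
    refine ⟨?_, fun _ F => rfl, ?_⟩
    · intro F hF
      have hF0 : F = ∅ := by
        by_contra hne
        exact hF (if_neg hne)
      subst hF0
      subst hR0
      refine ⟨⟨empty_subset _, ?_⟩, rfl⟩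
      intro D hD hD2
      rw [subset_empty] at hD2
      exact h0 (hD2 ▸ hD)
    · intro hne
      exact absurd hR0 hne.ne_empty
  | succ n ih =>
    obtain ⟨c, hc⟩ := ih
    have mono : ∀ R : Finset β, ∀ r, (Ω.filter fun x => π x ∈ R.erase r) ⊆
        Ω.filter fun x => π x ∈ R := by
      intro R r x hx
      rw [mem_filter] at hx ⊢
      exact ⟨hx.1, mem_of_mem_erase hx.2⟩
    have step : ∀ R : Finset β, R ⊆ V → R.card = n + 1 →
        ∃ y, IsChain (Ω.filter fun x => π x ∈ R) 𝒟 (n + 1) y ∧
          ∀ F, bd (Ω.filter fun x => π x ∈ R) y F = ∑ r ∈ R, c (R.erase r) F := by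
      intro R hRV hRn
      have hsub : ∀ r ∈ R, R.erase r ⊆ V ∧ (R.erase r).card = n := by
        intro r hr
        refine ⟨(erase_subset _ _).trans hRV, ?_⟩
        rw [card_erase_of_mem hr, hRn]
        rfl
      refine h R hRV n hRn.symm (fun F => ∑ r ∈ R, c (R.erase r) F) ?_ ?_
      · intro F hF
        obtain ⟨r, hr, hne⟩ := Finset.exists_ne_zero_of_sum_ne_zero hF
        obtain ⟨hV, hcard⟩ := hsub r hr
        have h1 := (hc _ hV hcard.le).1 F hne
        refine ⟨⟨h1.1.1.trans (mono R r), h1.1.2⟩, ?_⟩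
        rw [h1.2, hcard]
      · intro F
        have e1 : bd (Ω.filter fun x => π x ∈ R) (fun F => ∑ r ∈ R, c (R.erase r) F) F
            = ∑ r ∈ R, bd (Ω.filter fun x => π x ∈ R.erase r) (c (R.erase r)) F := by
          calc bd (Ω.filter fun x => π x ∈ R) (fun F => ∑ r ∈ R, c (R.erase r) F) F
              = ∑ r ∈ R, bd (Ω.filter fun x => π x ∈ R) (c (R.erase r)) F := by
                unfold bd
                rw [Finset.sum_comm]
            _ = _ := by
                apply Finset.sum_congr rfl
                intro r hr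
                obtain ⟨hV, hcard⟩ := hsub r hr
                exact bd_restrict (hc _ hV hcard.le).1 (mono R r) F
        rw [e1]
        rcases Nat.eq_zero_or_pos n with hn | hn
        · apply Finset.sum_eq_zero
          intro r hr
          obtain ⟨hV, hcard⟩ := hsub r hr
          have hE : R.erase r = ∅ := card_eq_zero.mp (by omega)
          unfold bd
          apply Finset.sum_eq_zero
          intro v hv
          rw [(hc _ hV hcard.le).2.1 hE]
          rw [if_neg]
          exact insert_ne_empty v F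
        · have e2 : ∀ r ∈ R, bd (Ω.filter fun x => π x ∈ R.erase r) (c (R.erase r)) F
              = ∑ r' ∈ R.erase r, c ((R.erase r).erase r') F := by
            intro r hr
            obtain ⟨hV, hcard⟩ := hsub r hr
            exact (hc _ hV hcard.le).2.2 (card_pos.mp (by omega)) F
          rw [Finset.sum_congr rfl e2, Finset.sum_sigma']
          refine Finset.sum_involution (fun p _ => (⟨p.2, p.1⟩ : (_ : β) × β)) ?_ ?_ ?_ ?_
          · intro p hp
            show c ((R.erase p.1).erase p.2) F + c ((R.erase p.2).erase p.1) F = 0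
            rw [erase_right_comm]
            exact CharTwo.add_self_eq_zero _
          · intro p hp _ he
            rw [mem_sigma, mem_erase] at hp
            have h4 : p.1 = p.2 := congrArg (fun q : (_ : β) × β => q.2) he
            exact hp.2.1 h4.symm
          · intro p hp
            rw [mem_sigma, mem_erase] at hp ⊢
            exact ⟨hp.2.2, fun h => hp.2.1 h.symm, hp.1⟩
          · intro p hp
            rfl
    choose g hg1 hg2 using step
    refine ⟨fun R => if hR : R ⊆ V ∧ R.card = n + 1 then g R hR.1 hR.2 else c R, ?_⟩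
    intro R hRV hRn
    by_cases hcard : R.card = n + 1
    · have hR : R ⊆ V ∧ R.card = n + 1 := ⟨hRV, hcard⟩
      have hne : R.Nonempty := card_pos.mp (by omega)
      refine ⟨?_, ?_, ?_⟩
      · show IsChain _ 𝒟 R.card (dite (R ⊆ V ∧ R.card = n + 1) _ _)
        rw [dif_pos hR]
        have h7 := hg1 R hRV hcard
        intro F hF
        rw [hcard]
        exact h7 F hF
      · intro hR0
        exact absurd hR0 hne.ne_empty
      · intro _ F
        simp only [dif_pos hR]
        rw [hg2 R hRV hcard F]
        apply Finset.sum_congr rfl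
        intro r hr
        have hno : ¬ (R.erase r ⊆ V ∧ (R.erase r).card = n + 1) := by
          rintro ⟨_, h2⟩
          rw [card_erase_of_mem hr] at h2
          omega
        rw [dif_neg hno]
    · have hR : ¬ (R ⊆ V ∧ R.card = n + 1) := fun h => hcard h.2
      have hle : R.card ≤ n := by omega
      have h3 := hc R hRV hle
      simp only [dif_neg hR]
      refine ⟨h3.1, h3.2.1, ?_⟩
      intro hne F
      rw [h3.2.2 hne F]
      apply Finset.sum_congr rfl
      intro r hr
      have hno : ¬ (R.erase r ⊆ V ∧ (R.erase r).card = n + 1) := by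
        rintro ⟨_, h2⟩
        rw [card_erase_of_mem hr] at h2
        omega
      rw [dif_neg hno]

theorem exists_colourful {β : Type*} [DecidableEq β] (Ω : Finset α) (𝒟 : Finset (Finset α))
    (h0 : ∅ ∉ 𝒟) (V : Finset β) (π : α → β)
    (h : ∀ R ⊆ V, ∀ n, n + 1 = R.card → Exact (Ω.filter fun x => π x ∈ R) 𝒟 n) :
    ∃ F, Face (Ω.filter fun x => π x ∈ V) 𝒟 F ∧ F.card = V.card ∧ F.image π = V := by
  obtain ⟨c, hc⟩ := exists_chains Ω 𝒟 h0 V π h V.card
  have hcol : ∀ R R' : Finset β, R' ⊆ R →
      colSets (Ω.filter fun x => π x ∈ R) π R' = colSets Ω π R' := by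
    intro R R' hRR
    ext G
    rw [mem_colSets, mem_colSets]
    constructor
    · rintro ⟨h1, h2⟩
      exact ⟨h1.trans (filter_subset _ _), h2⟩
    · rintro ⟨h1, h2, h3⟩
      refine ⟨?_, h2, h3⟩
      intro x hx
      rw [mem_filter]
      exact ⟨h1 hx, hRR (h3 ▸ mem_image_of_mem π hx)⟩
  have hN : ∀ k, ∀ R ⊆ V, R.card = k → ∑ F ∈ colSets Ω π R, c R F = 1 := by
    intro k
    induction k with
    | zero =>
      intro R hRV hR
      have hR0 : R = ∅ := card_eq_zero.mp hR
      have h1 := (hc R hRV (card_le_card hRV)).2.1 hR0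
      have h2 : colSets Ω π R = {∅} := by
        ext G
        rw [mem_colSets, mem_singleton]
        constructor
        · rintro ⟨_, h2, _⟩
          rw [hR] at h2
          exact card_eq_zero.mp h2
        · rintro rfl
          refine ⟨empty_subset _, ?_, ?_⟩
          · rw [hR]; rfl
          · rw [hR0]; rfl
      rw [h2, sum_singleton, h1, if_pos rfl]
    | succ k ih =>
      intro R hRV hR
      have hne : R.Nonempty := card_pos.mp (by omega)
      obtain ⟨r0, hr0⟩ := id hne
      have h1 := (hc R hRV (card_le_card hRV)).2.2 hne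
      have h2 := sum_colourful (Ω.filter fun x => π x ∈ R) R π
        (fun x hx => (mem_filter.mp hx).2) hr0 (c R)
      rw [hcol R R (Subset.refl R), hcol R (R.erase r0) (erase_subset _ _)] at h2
      rw [← h2, ← ih (R.erase r0) ((erase_subset _ _).trans hRV)
        (by rw [card_erase_of_mem hr0, hR]; rfl)]
      apply Finset.sum_congr rfl
      intro G hG
      rw [h1 G]
      rw [Finset.sum_eq_single r0]
      · intro r hr hrr0
        by_contra hcne
        have h3 := (hc (R.erase r) ((erase_subset _ _).trans hRV)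
          (card_le_card ((erase_subset _ _).trans hRV))).1 G hcne
        have h4 : r ∈ G.image π := by
          rw [(mem_colSets.mp hG).2.2, mem_erase]
          exact ⟨hrr0, hr⟩
        rw [mem_image] at h4
        obtain ⟨x, hx, hxr⟩ := h4
        have h5 := (mem_filter.mp (h3.1.1 hx)).2
        rw [hxr] at h5
        exact (mem_erase.mp h5).1 rfl
      · intro hno
        exact absurd hr0 hno
  have h1 := hN V.card V (Subset.refl V) rfl
  have h2 : ∑ F ∈ colSets Ω π V, c V F ≠ 0 := by
    rw [h1]
    exact one_ne_zero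
  obtain ⟨F, hF, hne⟩ := Finset.exists_ne_zero_of_sum_ne_zero h2
  have h3 := (hc V (Subset.refl V) le_rfl).1 F hne
  exact ⟨F, h3.1, h3.2, (mem_colSets.mp hF).2.2⟩

end Pool.Agent.NU
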