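import Pool.Agent.NU.NTc
import Pool.Agent.NU.NTd

/-!
# NTe: finite colouring theorem
-/

open Finset

namespace Pool.Agent.NU

variable {β : Type*} [DecidableEq β]

theorem finite_colouring (K : ℕ) (V : Finset β)
    (𝒞 : Finset (Finset β)) (h0 : ∅ ∉ 𝒞)
    (h : ∀ A ⊆ V, A.card + (cl V 𝒞 A).card ≤ K * A.card) :
    ∃ f : β → ℕ, (∀ v ∈ V, f v < 2 * K) ∧ ∀ C ∈ 𝒞, C ⊆ V → ∀ i, ∃ v ∈ C, f v ≠ i := by
  have hCne : ∀ C ∈ 𝒞, C.Nonempty := by
    intro C hC
    rw [nonempty_iff_ne_empty]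
    rintro rfl
    exact h0 hC
  rcases V.eq_empty_or_nonempty with hV | hV
  · refine ⟨fun _ => 0, ?_, ?_⟩
    · intro v hv
      rw [hV] at hv
      exact absurd hv (notMem_empty v)
    · intro C hC hCV i
      rw [hV, subset_empty] at hCV
      exact absurd hCV (hCne C hC).ne_empty
  obtain ⟨v0, hv0⟩ := hV
  have hK : 1 ≤ K := by
    have h1 := h {v0} (singleton_subset_iff.mpr hv0)
    rw [card_singleton] at h1
    omega
  set Ω : Finset (β × ℕ) := V ×ˢ range (2 * K) with hΩ
  set 𝒟 : Finset (Finset (β × ℕ)) :=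
    (𝒞 ×ˢ range (2 * K)).image (fun p => p.1 ×ˢ ({p.2} : Finset ℕ)) with h𝒟
  have h0' : ∅ ∉ 𝒟 := by
    rw [h𝒟, mem_image]
    rintro ⟨p, hp, hpe⟩
    rw [mem_product] at hp
    obtain ⟨v, hv⟩ := hCne p.1 hp.1
    have : (v, p.2) ∈ (∅ : Finset (β × ℕ)) := by
      rw [← hpe, mem_product]
      exact ⟨hv, mem_singleton_self _⟩
    exact absurd this (notMem_empty _)
  have hcl : ∀ R ⊆ V, ∀ A ⊆ Ω.filter (fun x => x.1 ∈ R),
      A.card + (cl (Ω.filter fun x => x.1 ∈ R) 𝒟 A).card ≤ K * A.card + 0 := by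
    intro R hR A hA
    have hmA : ∀ x ∈ A, x.2 ∈ range (2 * K) := by
      intro x hx
      have h1 := (mem_filter.mp (hA hx)).1
      rw [hΩ, mem_product] at h1
      exact h1.2
    have hmC : ∀ x ∈ cl (Ω.filter fun x => x.1 ∈ R) 𝒟 A, x.2 ∈ range (2 * K) := by
      intro x hx
      have h1 := (mem_filter.mp (mem_sdiff.mp (mem_filter.mp hx).1).1).1
      rw [hΩ, mem_product] at h1
      exact h1.2
    rw [card_eq_sum_card_fiberwise hmA, card_eq_sum_card_fiberwise hmC, ← sum_add_distrib,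
      add_zero, mul_sum]
    apply sum_le_sum
    intro i hi
    have inj : ∀ B : Finset (β × ℕ),
        ((B.filter fun x => x.2 = i).image Prod.fst).card = (B.filter fun x => x.2 = i).card := by
      intro B
      apply card_image_of_injOn
      intro x hx y hy hxy
      rw [mem_coe, mem_filter] at hx hy
      exact Prod.ext hxy (hx.2.trans hy.2.symm)
    have hAV : (A.filter fun x => x.2 = i).image Prod.fst ⊆ V := by
      intro v hv
      rw [mem_image] at hv
      obtain ⟨x, hx, rfl⟩ := hv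
      have h1 := (mem_filter.mp (hA (mem_filter.mp hx).1)).1
      rw [hΩ, mem_product] at h1
      exact h1.1
    have h1 := h _ hAV
    have h2 : ((cl (Ω.filter fun x => x.1 ∈ R) 𝒟 A).filter fun x => x.2 = i).image Prod.fst ⊆
        cl V 𝒞 ((A.filter fun x => x.2 = i).image Prod.fst) := by
      intro v hv
      rw [mem_image] at hv
      obtain ⟨x, hx, rfl⟩ := hv
      rw [mem_filter] at hx
      obtain ⟨hx1, hx2⟩ := hx
      unfold cl at hx1 ⊢
      rw [mem_filter, mem_sdiff, mem_filter] at hx1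
      obtain ⟨⟨⟨hxΩ, hxR⟩, hxA⟩, D, hD, hxD, hDA⟩ := hx1
      rw [h𝒟, mem_image] at hD
      obtain ⟨p, hp, rfl⟩ := hD
      rw [mem_product] at hp hxD
      have hpi : p.2 = i := by
        rw [← hx2]
        exact (mem_singleton.mp hxD.2).symm
      rw [mem_filter, mem_sdiff]
      refine ⟨⟨hR hxR, ?_⟩, p.1, hp.1, hxD.1, ?_⟩
      · intro h3
        rw [mem_image] at h3
        obtain ⟨y, hy, hyx⟩ := h3
        rw [mem_filter] at hy
        have : y = x := Prod.ext hyx (hy.2.trans hx2.symm)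
        exact hxA (this ▸ hy.1)
      · intro w hw
        have h3 : (w, p.2) ∈ insert x A := by
          apply hDA
          rw [mem_product]
          exact ⟨hw, mem_singleton_self _⟩
        rw [mem_insert] at h3 ⊢
        rcases h3 with h3 | h3
        · left
          rw [← h3]
        · right
          rw [mem_image]
          exact ⟨(w, p.2), mem_filter.mpr ⟨h3, hpi⟩, rfl⟩
    have h3 := card_le_card h2
    rw [inj] at h1 h3
    exact (Nat.add_le_add_left h3 _).trans h1
  have hex : ∀ R ⊆ V, ∀ n, n + 1 = R.card → Exact (Ω.filter fun x => x.1 ∈ R) 𝒟 n := by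
    intro R hR n hn
    refine exact_of_closure K 𝒟.card _ 𝒟 0 le_rfl h0' (hcl R hR) n ?_
    have h1 : Ω.filter (fun x => x.1 ∈ R) = R ×ˢ range (2 * K) := by
      ext x
      rw [mem_filter, hΩ, mem_product, mem_product]
      constructor
      · rintro ⟨⟨_, h2⟩, h3⟩
        exact ⟨h3, h2⟩
      · rintro ⟨h3, h2⟩
        exact ⟨⟨hR h3, h2⟩, h3⟩
    rw [h1, card_product, card_range, ← hn]
    nlinarith
  obtain ⟨F, hF, _, hFV⟩ := exists_colourful Ω 𝒟 h0' V Prod.fst hex
  have hpick : ∀ v : β, ∃ i, v ∈ V → (v, i) ∈ F := by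
    intro v
    by_cases hv : v ∈ V
    · rw [← hFV, mem_image] at hv
      obtain ⟨x, hx, rfl⟩ := hv
      exact ⟨x.2, fun _ => hx⟩
    · exact ⟨0, fun h => absurd h hv⟩
  choose f hf using hpick
  have hflt : ∀ v ∈ V, f v < 2 * K := by
    intro v hv
    have h1 := (mem_filter.mp (hF.1 (hf v hv))).1
    rw [hΩ, mem_product, mem_range] at h1
    exact h1.2
  refine ⟨f, hflt, ?_⟩
  intro C hC hCV i
  by_contra hcon
  push Not at hcon
  obtain ⟨v, hv⟩ := hCne C hC
  have hi : i < 2 * K := by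
    rw [← hcon v hv]
    exact hflt v (hCV hv)
  apply hF.2 (C ×ˢ {i})
  · rw [h𝒟, mem_image]
    refine ⟨(C, i), ?_, rfl⟩
    rw [mem_product, mem_range]
    exact ⟨hC, hi⟩
  · intro x hx
    rw [mem_product, mem_singleton] at hx
    have h1 := hf x.1 (hCV hx.1)
    rw [hcon x.1 hx.1, ← hx.2] at h1
    exact h1

end Pool.Agent.NU
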