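import Pool.Agent.NU.NTf
import Pool.Agent.NU.NLb

/-!
# NVa: relations of bounded length

`ov P c = ∑ min (P g) (P (g - c))` is at most `amb P c / log 2`, and it shrinks at most by the factor
`1 - 1/M` when a digit is added and `c` is shifted by the digit. So a shift by a sum of at most
`M - 1` signed elements of `A` has overlap at least `(1 - 1/M)^(M-1) ≥ 1/e`.
-/

open Finset

namespace Pool.Agent.NU

variable {G : Type*} [AddCommGroup G]

/-- The overlap of `P` with its translate by `c`. -/
noncomputable def ov (P : G → ℝ) (c : G) : ℝ := ∑' g, min (P g) (P (g - c))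

theorem ov_le_amb {P : G → ℝ} (hP : IsLaw P) (c : G) : Real.log 2 * ov P c ≤ amb P c := by
  unfold ov amb
  rw [← tsum_mul_left, le_div_iff₀ (by norm_num : (0 : ℝ) < 2), ← tsum_mul_right]
  refine Summable.tsum_le_tsum (fun g => ?_) ?_ ?_
  · have := Psi_min (hP.nonneg g) (hP.nonneg (g - c))
    linarith
  · exact sum_fin (fin_pair hP.fin c (fun x y => Real.log 2 * min x y * 2) (by simp))
  · exact sum_fin (fin_pair hP.fin c (fun x y => Psi x y) Psi_zero_zero)

private theorem shift_sum {P : G → ℝ} (c w : G) :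
    ∑' g, min (P (g - w)) (P (g - w - c)) = ov P c :=
  tsum_shift (fun g => min (P g) (P (g - c))) w

theorem ov_digOp {P : G → ℝ} (hP : IsLaw P) {M : ℕ} (hM : 1 ≤ M) (c v u : G)
    (hu : u = v ∨ u = -v) : (1 - 1 / (M : ℝ)) * ov P c ≤ ov (digOp M v P) (c + u) := by
  have hM0 : (0 : ℝ) < M := by exact_mod_cast hM
  obtain ⟨N, rfl⟩ : ∃ N, M = N + 1 := ⟨M - 1, by omega⟩
  -- the left side as a sum
  obtain ⟨a, ha1, ha2⟩ : ∃ a : ℕ, (∀ g : G,
      ∑ j ∈ range N, P (g - (j + a) • v) ≤ ∑ j ∈ range (N + 1), P (g - j • v)) ∧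
      (∀ g : G, ∑ j ∈ range N, P (g - (j + a) • v - c) ≤
        ∑ j ∈ range (N + 1), P (g - (c + u) - j • v)) := by
    rcases hu with rfl | rfl
    · refine ⟨1, fun g => ?_, fun g => ?_⟩
      · rw [Finset.sum_range_succ']
        exact le_add_of_nonneg_right (hP.nonneg _)
      · rw [Finset.sum_range_succ]
        refine le_add_of_le_of_nonneg (le_of_eq ?_) (hP.nonneg _)
        refine Finset.sum_congr rfl fun j _ => ?_
        congr 1
        rw [add_nsmul, one_nsmul]
        abel
    · refine ⟨0, fun g => ?_, fun g => ?_⟩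
      · rw [Finset.sum_range_succ]
        exact le_add_of_nonneg_right (hP.nonneg _)
      · rw [Finset.sum_range_succ']
        refine le_add_of_le_of_nonneg (le_of_eq ?_) (hP.nonneg _)
        refine Finset.sum_congr rfl fun j _ => ?_
        congr 1
        rw [add_zero, add_nsmul, one_nsmul]
        abel
  have hleft : (1 - 1 / ((N + 1 : ℕ) : ℝ)) * ov P c =
      ∑' g, ∑ j ∈ range N, min (P (g - (j + a) • v)) (P (g - (j + a) • v - c)) /
        ((N + 1 : ℕ) : ℝ) := by
    rw [Summable.tsum_finsetSum]
    · have : ∀ j ∈ range N, ∑' g, min (P (g - (j + a) • v)) (P (g - (j + a) • v - c)) /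
          ((N + 1 : ℕ) : ℝ) = ov P c / ((N + 1 : ℕ) : ℝ) := by
        intro j _
        rw [tsum_div_const, shift_sum]
      rw [Finset.sum_congr rfl this, Finset.sum_const, card_range, nsmul_eq_mul]
      push_cast
      field_simp
      ring
    · intro j _
      refine Summable.div_const ?_ _
      exact sum_fin (fin_shift (fin_pair hP.fin c (fun x y => min x y) (by simp)) _)
  rw [hleft]
  unfold ov
  have hlaw := hP.digOp hM v
  refine Summable.tsum_le_tsum (fun g => ?_) ?_ ?_
  · rw [← Finset.sum_div]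
    have h1 : (∑ j ∈ range N, min (P (g - (j + a) • v)) (P (g - (j + a) • v - c))) ≤
        min (∑ j ∈ range (N + 1), P (g - j • v)) (∑ j ∈ range (N + 1), P (g - (c + u) - j • v)) := by
      refine le_min ?_ ?_
      · exact (Finset.sum_le_sum fun j _ => min_le_left _ _).trans (ha1 g)
      · exact (Finset.sum_le_sum fun j _ => min_le_right _ _).trans (ha2 g)
    have h2 : min (digOp (N + 1) v P g) (digOp (N + 1) v P (g - (c + u))) =
        min (∑ j ∈ range (N + 1), P (g - j • v))
          (∑ j ∈ range (N + 1), P (g - (c + u) - j • v)) / ((N + 1 : ℕ) : ℝ) := by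
      unfold digOp
      rw [min_div_div_right hM0.le]
    rw [h2]
    exact div_le_div_of_nonneg_right h1 hM0.le
  · refine summable_sum fun j _ => ?_
    refine Summable.div_const ?_ _
    exact sum_fin (fin_shift (fin_pair hP.fin c (fun x y => min x y) (by simp)) _)
  · exact sum_fin (fin_pair hlaw.fin (c + u) (fun x y => min x y) (by simp))

theorem ov_zero {P : G → ℝ} (hP : IsLaw P) : ov P 0 = 1 := by
  unfold ov
  simp only [sub_zero, min_self]
  exact hP.mass

/-- Overlap of the law of a digit sum with a translate by a signed sum. -/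
theorem ov_law [DecidableEq G] {M : ℕ} (hM : 1 ≤ M) (S : Finset G) (ρ : G → ℤ)
    (hρ : ∀ a ∈ S, ρ a = 1 ∨ ρ a = -1) :
    (1 - 1 / (M : ℝ)) ^ S.card ≤ ov (law M S) (∑ a ∈ S, ρ a • a) := by
  have hM0 : (1 : ℝ) ≤ M := by exact_mod_cast hM
  have hq : 0 ≤ 1 - 1 / (M : ℝ) := by
    rw [sub_nonneg, div_le_one (by linarith)]
    exact hM0
  induction S using Finset.induction_on with
  | empty =>
    rw [card_empty, pow_zero, sum_empty, ov_zero (isLaw_law hM ∅)]
  | insert v S hv ih =>
    rw [card_insert_of_notMem hv, pow_succ, sum_insert hv, law_insert hM hv, add_comm]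
    have h1 := ih (fun a ha => hρ a (mem_insert_of_mem ha))
    have h2 := ov_digOp (isLaw_law hM S) hM (∑ a ∈ S, ρ a • a) v (ρ v • v) (by
      rcases hρ v (mem_insert_self v S) with h | h
      · left; rw [h, one_smul]
      · right; rw [h, neg_smul, one_smul])
    refine le_trans ?_ h2
    rw [mul_comm]
    exact mul_le_mul_of_nonneg_left h1 hq

end Pool.Agent.NU
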