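import Pool.Agent.NU.NVa

/-!
# NVb: logarithmically many parts for relations with at most `s` terms
-/

open Finset

namespace Pool.Agent.NU

variable {G : Type*} [AddCommGroup G]

private theorem amb_union_le' [DecidableEq G] {M : ℕ} (hM : 1 ≤ M) (A : Finset G) (c : G)
    (C : Finset G) : amb (law M A) c ≤ amb (law M (A ∪ C)) c := by
  induction C using Finset.induction_on with
  | empty => rw [Finset.union_empty]
  | insert a C' ha ih =>
    rw [Finset.union_insert]
    by_cases haA : a ∈ A ∪ C'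
    · rw [Finset.insert_eq_of_mem haA]
      exact ih
    · rw [law_insert hM haA]
      exact ih.trans (amb_digOp (isLaw_law hM _) hM c a)

theorem pow_ge {s : ℕ} (hs : 2 ≤ s) : Real.exp (-1) ≤ (1 - 1 / (s : ℝ)) ^ (s - 1) := by
  obtain ⟨n, rfl⟩ : ∃ n, s = n + 1 := ⟨s - 1, by omega⟩
  have hn : (0 : ℝ) < n := by
    have : 0 < n := by omega
    exact_mod_cast this
  have h1 : (1 - 1 / ((n + 1 : ℕ) : ℝ)) = (1 + 1 / (n : ℝ))⁻¹ := by
    push_cast
    field_simp
    ring
  rw [h1, Nat.add_sub_cancel, inv_pow, Real.exp_neg]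
  refine inv_anti₀ (by positivity) ?_
  calc (1 + 1 / (n : ℝ)) ^ n ≤ (Real.exp (1 / n)) ^ n := by
        refine pow_le_pow_left₀ (by positivity) ?_ n
        rw [add_comm]
        exact Real.add_one_le_exp _
    _ = Real.exp 1 := by
        rw [← Real.exp_nat_mul]
        congr 1
        field_simp

theorem amb_ge_short [DecidableEq G] {s : ℕ} (hs : 2 ≤ s) (A S : Finset G) (hSA : S ⊆ A)
    (hS : S.card + 1 ≤ s) (ρ : G → ℤ) (hρ : ∀ a ∈ S, ρ a = 1 ∨ ρ a = -1) :
    Real.log 2 * Real.exp (-1) ≤ amb (law s A) (∑ a ∈ S, ρ a • a) := by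
  have hs1 : 1 ≤ s := by omega
  have hs0 : (1 : ℝ) ≤ s := by exact_mod_cast hs1
  have h1 := amb_union_le' hs1 S (∑ a ∈ S, ρ a • a) A
  rw [Finset.union_eq_right.2 hSA] at h1
  have h2 := ov_le_amb (isLaw_law hs1 S) (∑ a ∈ S, ρ a • a)
  have h3 := ov_law hs1 S ρ hρ
  have hl : 0 < Real.log 2 := Real.log_pos (by norm_num)
  have h4 : (1 - 1 / (s : ℝ)) ^ (s - 1) ≤ (1 - 1 / (s : ℝ)) ^ S.card := by
    refine pow_le_pow_of_le_one ?_ ?_ (by omega)
    · rw [sub_nonneg, div_le_one (by linarith)]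
      exact hs0
    · have : 0 ≤ 1 / (s : ℝ) := by positivity
      linarith
  have h5 := mul_le_mul_of_nonneg_left ((pow_ge hs).trans (h4.trans h3)) hl.le
  linarith

/-- A set with the proportional property is a union of logarithmically many sets without relations
with at most `s` terms. -/
theorem short_main {δ : ℝ} (hδ : 0 < δ) {s : ℕ} (hs : 2 ≤ s) {Λ : Set G}
    (hΛ : Proportional δ Λ) :
    ∃ T : Fin (2 * (⌈4 * Real.log s / δ⌉₊ + 1)) → Set G, Λ = ⋃ i, T i ∧
      ∀ i, ∀ C : Finset G, (↑C : Set G) ⊆ T i → C.card ≤ s → MIndep 1 C := by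
  classical
  have hs1 : 1 ≤ s := by omega
  set K : ℕ := ⌈4 * Real.log s / δ⌉₊ + 1 with hK
  let 𝒞 : Set (Finset G) := {C | C.Nonempty ∧ C.card ≤ s ∧
    ∃ ρ : G → ℤ, (∀ a ∈ C, ρ a = 1 ∨ ρ a = -1) ∧ ∑ a ∈ C, ρ a • a = 0}
  have h0 : ∅ ∉ 𝒞 := fun h => Finset.not_nonempty_empty h.1
  have hlog : 0 ≤ Real.log s := Real.log_nonneg (by exact_mod_cast hs1)
  have hcl : ∀ A W : Finset G, (↑A : Set G) ⊆ Λ → (↑W : Set G) ⊆ Λ → Disjoint A W →
      (∀ w ∈ W, ∃ C ∈ 𝒞, w ∈ C ∧ C ⊆ insert w A) → A.card + W.card ≤ K * A.card := by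
    intro A W _ hW hdis h
    have h1 : ∀ w ∈ W, Real.log 2 * Real.exp (-1) ≤ amb (law s A) (1 • w) := by
      intro w hw
      obtain ⟨C, ⟨_, hC2, ρ, hρ1, hρ2⟩, hwC, hCA⟩ := h w hw
      have hsub : C.erase w ⊆ A := by
        intro x hx
        rw [Finset.mem_erase] at hx
        rcases Finset.mem_insert.1 (hCA hx.2) with h2 | h2
        · exact absurd h2 hx.1
        · exact h2
      have hsq : ρ w * ρ w = 1 := by
        rcases hρ1 w hwC with h | h <;> rw [h] <;> norm_num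
      have hw1 : (1 : ℕ) • w = ∑ a ∈ C.erase w, (-(ρ w * ρ a)) • a := by
        have h2 : ρ w • w + ∑ a ∈ C.erase w, ρ a • a = 0 := by
          rw [← hρ2, Finset.add_sum_erase C (fun a => ρ a • a) hwC]
        have h3 : ∑ a ∈ C.erase w, (-(ρ w * ρ a)) • a =
            -(ρ w • ∑ a ∈ C.erase w, ρ a • a) := by
          rw [Finset.smul_sum, ← Finset.sum_neg_distrib]
          refine Finset.sum_congr rfl fun a _ => ?_
          rw [neg_smul, mul_smul]
        have h4 : ∑ a ∈ C.erase w, ρ a • a = -(ρ w • w) := by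
          rw [eq_neg_iff_add_eq_zero, add_comm]
          exact h2
        rw [h3, h4, smul_neg, neg_neg, ← mul_smul, hsq, one_smul, one_smul]
      rw [hw1]
      refine amb_ge_short hs A (C.erase w) hsub ?_ _ ?_
      · rw [Finset.card_erase_of_mem hwC]
        have := Finset.card_pos.2 ⟨w, hwC⟩
        omega
      · intro a ha
        have h5 := hρ1 a (Finset.mem_of_mem_erase ha)
        rcases hρ1 w hwC with h6 | h6 <;> rcases h5 with h5 | h5 <;> rw [h5, h6] <;> norm_num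
    obtain ⟨B, hB, hBd, hBc⟩ := hΛ W hW
    have h2 := amb_sum_le (isLaw_law hs1 A) B 1 (by
      intro C D hC hD hCD
      apply hBd C D hC hD
      simpa using hCD) (ε := Real.log 2 * Real.exp (-1)) (fun w hw => h1 w (hB hw))
    have h3 := ent_law_le hs1 A
    have hlog2 : 0.6931471803 < Real.log 2 := Real.log_two_gt_d9
    have hexp : Real.exp 1 < 2.7182818286 := Real.exp_one_lt_d9
    have hee : Real.exp (-1) * Real.exp 1 = 1 := by
      rw [← Real.exp_add]
      simp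
    have hepos : 0 < Real.exp (-1) := Real.exp_pos _
    have h14 : 1 ≤ 4 * (Real.log 2 * Real.exp (-1)) := by nlinarith
    have hB0 : (0 : ℝ) ≤ B.card := Nat.cast_nonneg _
    have h5 : (B.card : ℝ) ≤ 4 * (A.card * Real.log s) := by nlinarith
    have h6 : (W.card : ℝ) ≤ 4 * Real.log s / δ * A.card := by
      rw [div_mul_eq_mul_div, le_div_iff₀ hδ]
      linarith
    have h8 : (W.card : ℝ) ≤ (⌈4 * Real.log s / δ⌉₊ : ℝ) * A.card :=
      h6.trans (mul_le_mul_of_nonneg_right (Nat.le_ceil _) (Nat.cast_nonneg _))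
    have h9 : W.card ≤ ⌈4 * Real.log s / δ⌉₊ * A.card := by exact_mod_cast h8
    rw [hK, add_mul, one_mul]
    omega
  obtain ⟨T, hT1, hT2⟩ := infinite_colouring K Λ 𝒞 h0 hcl
  refine ⟨T, hT1, ?_⟩
  intro i C hC hCs c hc hsum
  by_contra hcon
  push Not at hcon
  obtain ⟨b, hb, hcb⟩ := hcon
  refine hT2 i (C.filter fun x => c x ≠ 0) ⟨⟨b, Finset.mem_filter.2 ⟨hb, hcb⟩⟩,
    (Finset.card_filter_le _ _).trans hCs, c, ?_, ?_⟩ ?_
  · intro a ha
    rw [Finset.mem_filter] at ha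
    have h1 := hc a ha.1
    rw [Nat.cast_one, abs_le] at h1
    omega
  · rw [Finset.sum_filter_of_ne, hsum]
    intro x _ hx h
    rw [h, zero_smul] at hx
    exact hx rfl
  · intro x hx
    exact hC (Finset.mem_coe.2 (Finset.mem_of_mem_filter x (Finset.mem_coe.1 hx)))

end Pool.Agent.NU
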